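import Pool.Agent.W_c0q2_h80.Sys

/-!
# MP_c0ce05_co, question 2: the combinatorial lemma

`A` is a set of `q` vertices. If for every small non-empty `R ⊆ A` at most `dm` vertices of `A` can
be derived by the arrows relative to `R`, then few links are inside `A`.
-/

set_option autoImplicit false

namespace C0q2

open scoped Classical
open C0lo C0st

variable {N : ℕ}

/-- the links inside `A` -/
noncomputable def lkA (P : GP N) (A : Finset (Fin N)) :
    Finset (Sym2 (Fin N) × Sym2 (Fin N)) :=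
  P.db.filter (fun d => d.1 ∈ ed A ∧ d.2 ∈ ed A)

/-- `D ⊆ A` is derived from `A \ D` by arrows relative to `R` -/
def Der (P : GP N) (R A D : Finset (Fin N)) : Prop :=
  D ⊆ A ∧ ∃ (f : Fin N → Fin N) (rk : Fin N → ℕ), ∀ y ∈ D, f y ∈ A ∧ Ar P R (f y) y ∧
    (f y ∈ D → rk y < rk (f y))

/-- the heads of arrows inside `A` -/
noncomputable def SS (P : GP N) (A R : Finset (Fin N)) : Finset (Fin N) :=
  A.filter (fun y => ∃ x ∈ A, x ≠ y ∧ Ar P R x y)

variable {P : GP N} {A R : Finset (Fin N)} {Dl : ℕ}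

theorem mem_NN {f : Sym2 (Fin N)} {x : Fin N} :
    x ∈ NN P f ↔ ∃ d ∈ P.db, (d.1 = f ∧ x ∈ d.2) ∨ (d.2 = f ∧ x ∈ d.1) := by
  unfold NN
  rw [Finset.mem_filter]
  exact ⟨fun h => h.2, fun h => ⟨Finset.mem_univ _, h⟩⟩

theorem mem_lkA {d : Sym2 (Fin N) × Sym2 (Fin N)} :
    d ∈ lkA P A ↔ d ∈ P.db ∧ d.1 ∈ ed A ∧ d.2 ∈ ed A := by
  unfold lkA
  rw [Finset.mem_filter]

theorem mem_SS {y : Fin N} : y ∈ SS P A R ↔ y ∈ A ∧ ∃ x ∈ A, x ≠ y ∧ Ar P R x y := by
  unfold SS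
  rw [Finset.mem_filter]

theorem SS_mono {R' : Finset (Fin N)} (h : R ⊆ R') : SS P A R ⊆ SS P A R' := by
  intro y hy
  rw [mem_SS] at hy ⊢
  obtain ⟨h1, x, hx, hxy, r, hr, h2⟩ := hy
  exact ⟨h1, x, hx, hxy, r, h hr, h2⟩

theorem SS_empty : SS P A ∅ = ∅ := by
  ext y
  rw [mem_SS]
  constructor
  · rintro ⟨_, x, _, _, r, hr, _⟩
    exact absurd hr (Finset.notMem_empty _)
  · intro h
    exact absurd h (Finset.notMem_empty _)

/-- half of the heads can be derived -/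
theorem der_heads : ∃ D, Der P R A D ∧ (SS P A R).card ≤ 2 * D.card := by
  have hf : ∀ y : Fin N, ∃ x : Fin N, y ∈ SS P A R → x ∈ A ∧ x ≠ y ∧ Ar P R x y := by
    intro y
    by_cases hy : y ∈ SS P A R
    · obtain ⟨_, x, hx, hxy, har⟩ := mem_SS.1 hy
      exact ⟨x, fun _ => ⟨hx, hxy, har⟩⟩
    · exact ⟨y, fun h => absurd h hy⟩
  choose f hf using hf
  obtain ⟨D1, hD1⟩ : ∃ D1, D1 = (SS P A R).filter (fun y => y < f y) := ⟨_, rfl⟩
  obtain ⟨D2, hD2⟩ : ∃ D2, D2 = (SS P A R).filter (fun y => ¬ y < f y) := ⟨_, rfl⟩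
  have hc : D1.card + D2.card = (SS P A R).card := by
    rw [hD1, hD2]
    exact Finset.card_filter_add_card_filter_not _
  have h1 : Der P R A D1 := by
    refine ⟨fun y hy => ?_, f, fun y => (y : ℕ), fun y hy => ?_⟩
    · rw [hD1, Finset.mem_filter] at hy
      exact (mem_SS.1 hy.1).1
    rw [hD1, Finset.mem_filter] at hy
    obtain ⟨h1, h2, h3⟩ := hf y hy.1
    exact ⟨h1, h3, fun _ => hy.2⟩
  have h2 : Der P R A D2 := by
    refine ⟨fun y hy => ?_, f, fun y => N - (y : ℕ), fun y hy => ?_⟩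
    · rw [hD2, Finset.mem_filter] at hy
      exact (mem_SS.1 hy.1).1
    rw [hD2, Finset.mem_filter] at hy
    obtain ⟨h1, h2, h3⟩ := hf y hy.1
    refine ⟨h1, h3, fun _ => ?_⟩
    have h4 : (f y : ℕ) < y := by
      have h5 : f y ≤ y := not_lt.1 hy.2
      exact lt_of_le_of_ne h5 fun h => h2 (Fin.ext h)
    have h6 := y.2
    show N - (y : ℕ) < N - (f y : ℕ)
    omega
  rcases le_total D1.card D2.card with h | h
  · exact ⟨D2, h2, by omega⟩
  · exact ⟨D1, h1, by omega⟩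

/-- the sources of the star links with centre `a` -/
noncomputable def st (P : GP N) (A : Finset (Fin N)) (a : Fin N) : Finset (Fin N) :=
  A.filter (fun b => b ≠ a ∧ ∃ c ∈ A, c ≠ a ∧ (s(a, b), s(a, c)) ∈ P.db)

theorem mem_st {a b : Fin N} :
    b ∈ st P A a ↔ b ∈ A ∧ b ≠ a ∧ ∃ c ∈ A, c ≠ a ∧ (s(a, b), s(a, c)) ∈ P.db := by
  unfold st
  rw [Finset.mem_filter]

/-- the sources of the star links with centre `a` are derived relative to `a` -/
theorem der_star (hP : P.Valid Dl) (a : Fin N) : Der P {a} A (st P A a) := by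
  obtain ⟨t, ht⟩ := hP.acyc
  refine ⟨fun b hb => (mem_st.1 hb).1, ?_⟩
  have hf : ∀ b : Fin N, ∃ c : Fin N, b ∈ st P A a → c ∈ A ∧ (s(a, b), s(a, c)) ∈ P.db := by
    intro b
    by_cases hb : b ∈ st P A a
    · obtain ⟨_, _, c, hc, _, h⟩ := mem_st.1 hb
      exact ⟨c, fun _ => ⟨hc, h⟩⟩
    · exact ⟨b, fun h => absurd h hb⟩
  choose f hf using hf
  refine ⟨f, fun b => t s(a, b), fun b hb => ?_⟩
  obtain ⟨h1, h2⟩ := hf b hb
  refine ⟨h1, ⟨a, Finset.mem_singleton_self a, ?_⟩, fun _ => ht _ h2⟩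
  rw [mem_NN]
  refine ⟨_, h2, Or.inr ⟨?_, Sym2.mem_mk_right a b⟩⟩
  show s(a, f b) = s(f b, a)
  exact Sym2.eq_swap

/-- the sources of the star links and of the other links -/
theorem card_lkA_le (hP : P.Valid Dl) :
    (lkA P A).card ≤ ∑ a ∈ A, (st P A a).card +
      ((lkA P A).filter (fun d => ∀ x ∈ d.1, x ∉ d.2)).card := by
  rw [← Finset.card_filter_add_card_filter_not (s := lkA P A) (fun d => ∀ x ∈ d.1, x ∉ d.2),
    add_comm]
  refine Nat.add_le_add_right ?_ _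
  have h1 : ((lkA P A).filter (fun d => ¬ ∀ x ∈ d.1, x ∉ d.2)).card =
      (((lkA P A).filter (fun d => ¬ ∀ x ∈ d.1, x ∉ d.2)).image Prod.fst).card := by
    rw [Finset.card_image_of_injOn]
    intro d hd d' hd' h
    rw [Finset.mem_coe, Finset.mem_filter, mem_lkA] at hd hd'
    exact hP.fn d hd.1.1 d' hd'.1.1 h
  rw [h1]
  have h2 : ∑ a ∈ A, (st P A a).card = (A.sigma fun a => st P A a).card :=
    (Finset.card_sigma _ _).symm
  rw [h2]
  refine le_trans (Finset.card_le_card ?_)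
    (Finset.card_image_le (f := fun x : (_ : Fin N) × Fin N => s(x.1, x.2)))
  intro e he
  obtain ⟨d, hd, rfl⟩ := Finset.mem_image.1 he
  rw [Finset.mem_filter, mem_lkA] at hd
  obtain ⟨⟨hdb, hd1, hd2⟩, hd3⟩ := hd
  push Not at hd3
  obtain ⟨a, ha1, ha2⟩ := hd3
  obtain ⟨b, hb⟩ := Sym2.mem_iff_exists.1 ha1
  obtain ⟨c, hc⟩ := Sym2.mem_iff_exists.1 ha2
  have h3 := mem_ed.1 hd1
  have h4 := mem_ed.1 hd2
  rw [Finset.mem_image]
  refine ⟨⟨a, b⟩, ?_, ?_⟩
  · rw [Finset.mem_sigma]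
    refine ⟨h3.1 a ha1, mem_st.2 ⟨h3.1 b (hb ▸ Sym2.mem_mk_right a b), ?_, c,
      h4.1 c (hc ▸ Sym2.mem_mk_right a c), ?_, ?_⟩⟩
    · intro h
      exact h3.2 (by rw [hb]; exact h.symm)
    · intro h
      exact h4.2 (by rw [hc]; exact h.symm)
    · show (s(a, b), s(a, c)) ∈ P.db
      rw [← hb, ← hc]
      exact hdb
  · show s(a, b) = d.1
    rw [hb]

/-- the disjoint links inside `A` -/
noncomputable def dj (P : GP N) (A : Finset (Fin N)) :
    Finset (Sym2 (Fin N) × Sym2 (Fin N)) :=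
  (lkA P A).filter (fun d => ∀ x ∈ d.1, x ∉ d.2)

/-- the ends of a disjoint link are heads relative to the other edge -/
theorem dj_arr {a b c c' : Fin N} (h : (s(a, b), s(c, c')) ∈ dj P A) :
    c ∈ SS P A {a} ∧ c ∈ SS P A {b} ∧ a ∈ SS P A {c} ∧ b ∈ SS P A {c} := by
  unfold dj at h
  rw [Finset.mem_filter, mem_lkA] at h
  obtain ⟨⟨hd, h1, h2⟩, h3⟩ := h
  have h4 := mem_ed.1 h1
  have h5 := mem_ed.1 h2
  have ha := h4.1 a (Sym2.mem_mk_left a b)
  have hb := h4.1 b (Sym2.mem_mk_right a b)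
  have hc := h5.1 c (Sym2.mem_mk_left c c')
  have hc' := h5.1 c' (Sym2.mem_mk_right c c')
  have nac : a ≠ c := fun h => h3 a (Sym2.mem_mk_left a b) (h ▸ Sym2.mem_mk_left a c')
  have nbc : b ≠ c := fun h => h3 b (Sym2.mem_mk_right a b) (h ▸ Sym2.mem_mk_left b c')
  have nac' : c' ≠ a := fun h => h3 a (Sym2.mem_mk_left a b) (h ▸ Sym2.mem_mk_right c c')
  have nbc' : c' ≠ b := fun h => h3 b (Sym2.mem_mk_right a b) (h ▸ Sym2.mem_mk_right c c')
  refine ⟨?_, ?_, ?_, ?_⟩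
  · rw [mem_SS]
    exact ⟨hc, b, hb, nbc, a, Finset.mem_singleton_self a, mem_NN.2 ⟨_, hd, Or.inl
      ⟨Sym2.eq_swap, Sym2.mem_mk_left c c'⟩⟩⟩
  · rw [mem_SS]
    exact ⟨hc, a, ha, nac, b, Finset.mem_singleton_self b, mem_NN.2 ⟨_, hd, Or.inl
      ⟨rfl, Sym2.mem_mk_left c c'⟩⟩⟩
  · rw [mem_SS]
    exact ⟨ha, c', hc', nac', c, Finset.mem_singleton_self c, mem_NN.2 ⟨_, hd, Or.inr
      ⟨Sym2.eq_swap, Sym2.mem_mk_left a b⟩⟩⟩
  · rw [mem_SS]
    exact ⟨hb, c', hc', nbc', c, Finset.mem_singleton_self c, mem_NN.2 ⟨_, hd, Or.inr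
      ⟨Sym2.eq_swap, Sym2.mem_mk_right a b⟩⟩⟩

/-- the greedy choice: all disjoint links are tame -/
theorem exists_tame {m0 dm h1 : ℕ} (hd : ∀ R ⊆ A, R.Nonempty → R.card ≤ m0 →
    (SS P A R).card ≤ dm) (h0 : dm < (m0 / 4) * (h1 + 1)) :
    ∃ W : Finset (Fin N), W.card ≤ dm ∧ ∀ d ∈ dj P A, ∀ x, (x ∈ d.1 ∨ x ∈ d.2) →
      (SS P A {x} \ W).card ≤ h1 := by
  obtain ⟨Q, hQ⟩ : ∃ Q : ℕ → Prop, Q = fun s => ∃ R ⊆ A, R.card ≤ 4 * s ∧
    s * (h1 + 1) ≤ (SS P A R).card := ⟨_, rfl⟩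
  have hd' : ∀ R ⊆ A, R.card ≤ m0 → (SS P A R).card ≤ dm := by
    intro R hR hc
    rcases R.eq_empty_or_nonempty with h | h
    · rw [h, SS_empty, Finset.card_empty]
      exact Nat.zero_le _
    · exact hd R hR h hc
  have hQ0 : Q 0 := by
    rw [hQ]
    exact ⟨∅, Finset.empty_subset _, by simp, by simp⟩
  have hQn : ¬ Q (m0 / 4) := by
    rw [hQ]
    rintro ⟨R, hR, hc, h2⟩
    have h3 := hd' R hR (by omega)
    omega
  have hstep : ∃ s, s < m0 / 4 ∧ Q s ∧ ¬ Q (s + 1) := by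
    by_contra hcon
    push Not at hcon
    have h3 : ∀ s, s ≤ m0 / 4 → Q s := by
      intro s
      induction s with
      | zero => exact fun _ => hQ0
      | succ s ih => exact fun hs => hcon s (by omega) (ih (by omega))
    exact hQn (h3 _ le_rfl)
  obtain ⟨s, hs, hs1, hs2⟩ := hstep
  rw [hQ] at hs1 hs2
  obtain ⟨R, hR, hc, h2⟩ := hs1
  refine ⟨SS P A R, hd' R hR (by omega), fun d hdj x hx => ?_⟩
  unfold dj at hdj
  rw [Finset.mem_filter, mem_lkA] at hdj
  obtain ⟨⟨_, h3, h4⟩, _⟩ := hdj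
  obtain ⟨R', hR'⟩ : ∃ R', R' = R ∪ (d.1.toFinset ∪ d.2.toFinset) := ⟨_, rfl⟩
  have h5 : R' ⊆ A := by
    rw [hR']
    refine Finset.union_subset hR (Finset.union_subset ?_ ?_)
    · intro v hv
      exact (mem_ed.1 h3).1 v (Sym2.mem_toFinset.1 hv)
    · intro v hv
      exact (mem_ed.1 h4).1 v (Sym2.mem_toFinset.1 hv)
  have h6 : R'.card ≤ 4 * (s + 1) := by
    have h7 : d.1.toFinset.card ≤ 2 := by
      rw [Sym2.card_toFinset]
      split_ifs <;> omega
    have h8 : d.2.toFinset.card ≤ 2 := by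
      rw [Sym2.card_toFinset]
      split_ifs <;> omega
    have h9 := Finset.card_union_le R (d.1.toFinset ∪ d.2.toFinset)
    have h10 := Finset.card_union_le d.1.toFinset d.2.toFinset
    rw [hR']
    omega
  have h11 : ¬ (s + 1) * (h1 + 1) ≤ (SS P A R').card := fun h => hs2 ⟨R', h5, h6, h⟩
  have h12 : SS P A R ⊆ SS P A R' := SS_mono (hR' ▸ Finset.subset_union_left)
  have h13 : SS P A {x} ⊆ SS P A R' := by
    refine SS_mono ?_
    rw [Finset.singleton_subset_iff, hR', Finset.mem_union, Finset.mem_union,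
      Sym2.mem_toFinset, Sym2.mem_toFinset]
    exact Or.inr hx
  have h14 : (SS P A {x} \ SS P A R).card ≤ (SS P A R' \ SS P A R).card :=
    Finset.card_le_card (Finset.sdiff_subset_sdiff h13 (Finset.Subset.refl _))
  have h15 := Finset.card_sdiff_add_card_eq_card h12
  have h16 : (s + 1) * (h1 + 1) = s * (h1 + 1) + (h1 + 1) := by ring
  omega

/-- few disjoint links -/
theorem card_dj_le (hP : P.Valid Dl) {dm h1 : ℕ} {W : Finset (Fin N)} (hW : W.card ≤ dm)
    (hS : ∀ x ∈ A, (SS P A {x}).card ≤ dm)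
    (hT : ∀ d ∈ dj P A, ∀ x, (x ∈ d.1 ∨ x ∈ d.2) → (SS P A {x} \ W).card ≤ h1) :
    (dj P A).card ≤ dm * dm + A.card * h1 * h1 + dm * h1 * dm := by
  have h1' : (dj P A).card = ((dj P A).image Prod.fst).card := by
    rw [Finset.card_image_of_injOn]
    intro d hd d' hd' h
    unfold dj at hd hd'
    rw [Finset.mem_coe, Finset.mem_filter, mem_lkA] at hd hd'
    exact hP.fn d hd.1.1 d' hd'.1.1 h
  obtain ⟨Tm, hTm⟩ : ∃ Tm, Tm = A.filter (fun x => (SS P A {x} \ W).card ≤ h1) := ⟨_, rfl⟩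
  obtain ⟨T1, hT1⟩ : ∃ T1, T1 = W ×ˢ W := ⟨_, rfl⟩
  obtain ⟨T2, hT2⟩ : ∃ T2, T2 = Tm.biUnion (fun b => ((SS P A {b} \ W).filter
    (fun c => c ∈ Tm)).biUnion (fun c => (SS P A {c} \ W).image (fun a => (a, b)))) :=
    ⟨_, rfl⟩
  obtain ⟨T3, hT3⟩ : ∃ T3, T3 = (W.filter (fun c => c ∈ Tm)).biUnion (fun c =>
    (SS P A {c} \ W) ×ˢ SS P A {c}) := ⟨_, rfl⟩
  have hTA : Tm ⊆ A := by
    rw [hTm]
    exact Finset.filter_subset _ _
  have hTc : ∀ x ∈ Tm, (SS P A {x} \ W).card ≤ h1 := by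
    intro x hx
    rw [hTm, Finset.mem_filter] at hx
    exact hx.2
  have c1 : T1.card ≤ dm * dm := by
    rw [hT1, Finset.card_product]
    exact Nat.mul_le_mul hW hW
  have c2 : T2.card ≤ A.card * h1 * h1 := by
    rw [hT2]
    refine (Finset.card_biUnion_le_card_mul _ _ (h1 * h1) ?_).trans ?_
    · intro b hb
      refine (Finset.card_biUnion_le_card_mul _ _ h1 ?_).trans ?_
      · intro c hc
        exact Finset.card_image_le.trans (hTc c (Finset.mem_filter.1 hc).2)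
      · exact Nat.mul_le_mul_right _ ((Finset.card_filter_le _ _).trans (hTc b hb))
    · rw [mul_assoc]
      exact Nat.mul_le_mul_right _ (Finset.card_le_card hTA)
  have c3 : T3.card ≤ dm * h1 * dm := by
    rw [hT3]
    refine (Finset.card_biUnion_le_card_mul _ _ (h1 * dm) ?_).trans ?_
    · intro c hc
      have hc' := (Finset.mem_filter.1 hc).2
      rw [Finset.card_product]
      exact Nat.mul_le_mul (hTc c hc') (hS c (hTA hc'))
    · rw [mul_assoc]
      exact Nat.mul_le_mul_right _ ((Finset.card_filter_le _ _).trans hW)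
  have hmain : (dj P A).image Prod.fst ⊆ (T1 ∪ T2 ∪ T3).image (fun x => s(x.1, x.2)) := by
    intro e he
    obtain ⟨d, hd, rfl⟩ := Finset.mem_image.1 he
    have hT' := hT d hd
    obtain ⟨e, g⟩ := d
    induction e using Sym2.ind with
    | _ a b =>
    induction g using Sym2.ind with
    | _ c c' =>
    have hin : ∀ x, x ∈ s(a, b) ∨ x ∈ s(c, c') → x ∈ Tm := by
      intro x hx
      rw [hTm, Finset.mem_filter]
      refine ⟨?_, hT' x hx⟩
      unfold dj at hd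
      rw [Finset.mem_filter, mem_lkA] at hd
      rcases hx with hx | hx
      · exact (mem_ed.1 hd.1.2.1).1 x hx
      · exact (mem_ed.1 hd.1.2.2).1 x hx
    have ta := hin a (Or.inl (Sym2.mem_mk_left a b))
    have tb := hin b (Or.inl (Sym2.mem_mk_right a b))
    have tc := hin c (Or.inr (Sym2.mem_mk_left c c'))
    have tc' := hin c' (Or.inr (Sym2.mem_mk_right c c'))
    -- the key for an outer end `a`, the other end `b`
    have key : ∀ a b : Fin N, ∀ c c' : Fin N, (s(a, b), s(c, c')) ∈ dj P A → a ∉ W →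
        b ∈ Tm → c ∈ Tm → c' ∈ Tm → (a, b) ∈ T1 ∪ T2 ∪ T3 := by
      intro a b c c' hd ha tb tc tc'
      have hd' : (s(a, b), s(c', c)) ∈ dj P A := by
        rw [Sym2.eq_swap (a := c')]
        exact hd
      have sw2 : ∀ c c' : Fin N, (s(a, b), s(c, c')) ∈ dj P A → c ∈ Tm → c ∉ W →
          (a, b) ∈ T1 ∪ T2 ∪ T3 := by
        intro c c' hd tc hc
        obtain ⟨_, k2, k3, _⟩ := dj_arr hd
        rw [Finset.mem_union, Finset.mem_union]
        refine Or.inl (Or.inr ?_)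
        rw [hT2, Finset.mem_biUnion]
        refine ⟨b, tb, ?_⟩
        rw [Finset.mem_biUnion]
        refine ⟨c, Finset.mem_filter.2 ⟨Finset.mem_sdiff.2 ⟨k2, hc⟩, tc⟩, ?_⟩
        rw [Finset.mem_image]
        exact ⟨a, Finset.mem_sdiff.2 ⟨k3, ha⟩, rfl⟩
      by_cases hc : c ∈ W
      · obtain ⟨_, _, k3, k4⟩ := dj_arr hd
        rw [Finset.mem_union]
        refine Or.inr ?_
        rw [hT3, Finset.mem_biUnion]
        refine ⟨c, Finset.mem_filter.2 ⟨hc, tc⟩, ?_⟩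
        rw [Finset.mem_product]
        exact ⟨Finset.mem_sdiff.2 ⟨k3, ha⟩, k4⟩
      · exact sw2 c c' hd tc hc
    rw [Finset.mem_image]
    by_cases ha : a ∈ W
    · by_cases hb : b ∈ W
      · refine ⟨(a, b), ?_, rfl⟩
        rw [Finset.mem_union, Finset.mem_union]
        refine Or.inl (Or.inl ?_)
        rw [hT1, Finset.mem_product]
        exact ⟨ha, hb⟩
      · refine ⟨(b, a), ?_, Sym2.eq_swap⟩
        refine key b a c c' ?_ hb ta tc tc'
        rw [Sym2.eq_swap (a := b)]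
        exact hd
    · exact ⟨(a, b), key a b c c' hd ha tb tc tc', rfl⟩
  rw [h1']
  refine (Finset.card_le_card hmain).trans (Finset.card_image_le.trans ?_)
  have u1 := Finset.card_union_le (T1 ∪ T2) T3
  have u2 := Finset.card_union_le T1 T2
  omega

/-- **The combinatorial lemma.** If for every non-empty `R ⊆ A` with at most `m0` elements at most
`dm` vertices are derived relative to `R`, then few links are inside `A`. -/
theorem card_lkA_lt (hP : P.Valid Dl) {m0 dm h1 : ℕ} (hm : 1 ≤ m0)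
    (hd : ∀ R ⊆ A, R.Nonempty → R.card ≤ m0 → ∀ D, Der P R A D → D.card ≤ dm)
    (h0 : 2 * dm < (m0 / 4) * (h1 + 1)) :
    (lkA P A).card ≤ A.card * dm +
      (2 * dm * (2 * dm) + A.card * h1 * h1 + 2 * dm * h1 * (2 * dm)) := by
  have hSS : ∀ R ⊆ A, R.Nonempty → R.card ≤ m0 → (SS P A R).card ≤ 2 * dm := by
    intro R hR hne hc
    obtain ⟨D, hD, h⟩ := der_heads (P := P) (A := A) (R := R)
    have := hd R hR hne hc D hD
    omega
  obtain ⟨W, hW, hT⟩ := exists_tame hSS h0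
  have h2 := card_dj_le hP hW (fun x hx => hSS {x} (Finset.singleton_subset_iff.2 hx)
    (Finset.singleton_nonempty x) (by rw [Finset.card_singleton]; exact hm)) hT
  have h3 := card_lkA_le (A := A) hP
  have h4 : ∑ a ∈ A, (st P A a).card ≤ A.card * dm := by
    rw [← smul_eq_mul, ← Finset.sum_const]
    refine Finset.sum_le_sum fun a ha => ?_
    exact hd {a} (Finset.singleton_subset_iff.2 ha) (Finset.singleton_nonempty a)
      (by rw [Finset.card_singleton]; exact hm) _ (der_star hP a)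
  unfold dj at h2
  omega

theorem lk_ed (P : GP N) (A : Finset (Fin N)) : lk P (ed A) (ed A) = (lkA P A).card := rfl

/-- the combinatorial lemma in terms of `lk` -/
theorem lk_ed_le (hP : P.Valid Dl) {m0 dm h1 : ℕ} (hm : 1 ≤ m0)
    (hd : ∀ R ⊆ A, R.Nonempty → R.card ≤ m0 → ∀ D, Der P R A D → D.card ≤ dm)
    (h0 : 2 * dm < (m0 / 4) * (h1 + 1)) :
    lk P (ed A) (ed A) ≤ A.card * dm +
      (2 * dm * (2 * dm) + A.card * h1 * h1 + 2 * dm * h1 * (2 * dm)) := by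
  rw [lk_ed]
  exact card_lkA_lt hP hm hd h0

end C0q2
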