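import Pool.Agent.W_c0q2_h26.CL

/-!
# MP_c0ce05_co, question 2: the code of the main count

Sets `S` which are derived from `W ∪ S` by a relation of out-degree at most `Δ`: at most
`((|W| + |S|) Δ) ^ |S|`. The prior of the main count.
-/

set_option autoImplicit false

namespace C0q2

open scoped Classical
open C0lo C0st

variable {N : ℕ}

/-- `S` is derived from `W` by the relation `rel` -/
def DW (rel : Fin N → Fin N → Prop) (W S : Finset (Fin N)) : Prop :=
  ∃ (f : Fin N → Fin N) (rk : Fin N → ℕ), ∀ y ∈ S, f y ∈ W ∪ S ∧ rel (f y) y ∧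
    (f y ∈ S → rk y < rk (f y))

variable {rel rel' : Fin N → Fin N → Prop} {W W' S : Finset (Fin N)}

theorem DW.mono_rel (h : DW rel W S) (hr : ∀ x y, rel x y → rel' x y) : DW rel' W S := by
  obtain ⟨f, rk, hf⟩ := h
  exact ⟨f, rk, fun y hy => ⟨(hf y hy).1, hr _ _ (hf y hy).2.1, (hf y hy).2.2⟩⟩

theorem DW.mono_W (h : DW rel W S) (hW : W ⊆ W') : DW rel W' S := by
  obtain ⟨f, rk, hf⟩ := h
  exact ⟨f, rk, fun y hy => ⟨Finset.union_subset_union_left hW (hf y hy).1,
    (hf y hy).2.1, (hf y hy).2.2⟩⟩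

/-- the part of a derived set outside `T`, derived from the rest -/
theorem Der.toDW {P : GP N} {R A D T : Finset (Fin N)} (h : Der P R A D) :
    DW (Ar P R) (A \ (D \ T)) (D \ T) := by
  obtain ⟨hDA, f, rk, hf⟩ := h
  refine ⟨f, rk, fun y hy => ?_⟩
  obtain ⟨h1, h2, h3⟩ := hf y (Finset.mem_sdiff.1 hy).1
  refine ⟨?_, h2, fun h => h3 (Finset.mem_sdiff.1 h).1⟩
  rw [Finset.mem_union, Finset.mem_sdiff]
  by_cases h4 : f y ∈ D \ T
  · exact Or.inr h4
  · exact Or.inl ⟨h1, h4⟩

/-- a subset of a derived set is derived -/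
theorem Der.sub {P : GP N} {R A D D' : Finset (Fin N)} (h : Der P R A D) (h' : D' ⊆ D) :
    Der P R A D' := by
  obtain ⟨hDA, f, rk, hf⟩ := h
  exact ⟨h'.trans hDA, f, rk, fun y hy => ⟨(hf y (h' hy)).1, (hf y (h' hy)).2.1,
    fun h => (hf y (h' hy)).2.2 (h' h)⟩⟩

/-- remove the last element of a derived set -/
theorem DW.remove (h : DW rel W S) (hne : S.Nonempty) :
    ∃ y ∈ S, DW rel W (S.erase y) ∧ ∃ x ∈ W ∪ S.erase y, rel x y := by
  obtain ⟨f, rk, hf⟩ := h
  obtain ⟨y, hy, hmin⟩ := Finset.exists_min_image S rk hne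
  have key : ∀ z ∈ S, f z ∈ W ∪ S.erase y ∨ False := by
    intro z hz
    left
    obtain ⟨h1, h2, h3⟩ := hf z hz
    rw [Finset.mem_union] at h1 ⊢
    by_cases h4 : f z ∈ S
    · right
      rw [Finset.mem_erase]
      refine ⟨fun h5 => ?_, h4⟩
      have h6 := h3 h4
      have h7 := hmin z hz
      rw [h5] at h6
      omega
    · exact Or.inl (h1.resolve_right h4)
  refine ⟨y, hy, ⟨f, rk, fun z hz => ?_⟩, f y, (key y hy).resolve_right id, (hf y hy).2.1⟩
  have hz' := Finset.mem_of_mem_erase hz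
  exact ⟨(key z hz').resolve_right id, (hf z hz').2.1,
    fun h => (hf z hz').2.2 (Finset.mem_of_mem_erase h)⟩

/-- the number of derived sets -/
theorem card_DW {Δ : ℕ} (hrel : ∀ x, (Finset.univ.filter (fun y => rel x y)).card ≤ Δ)
    (W : Finset (Fin N)) (s q : ℕ) (hq : W.card + s ≤ q) :
    ((Finset.univ : Finset (Finset (Fin N))).filter
      (fun S => S.card = s ∧ DW rel W S)).card ≤ (q * Δ) ^ s := by
  induction s with
  | zero =>
    rw [pow_zero]
    refine (Finset.card_le_card (t := {∅}) ?_).trans (by rw [Finset.card_singleton])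
    intro S hS
    rw [Finset.mem_filter] at hS
    rw [Finset.mem_singleton]
    exact Finset.card_eq_zero.1 hS.2.1
  | succ s ih =>
    have ih' := ih (by omega)
    have hsub : (Finset.univ : Finset (Finset (Fin N))).filter
        (fun S => S.card = s + 1 ∧ DW rel W S) ⊆
        ((Finset.univ : Finset (Finset (Fin N))).filter
          (fun S => S.card = s ∧ DW rel W S)).biUnion (fun S =>
          ((W ∪ S).biUnion (fun x => Finset.univ.filter (fun y => rel x y))).image
            (fun y => insert y S)) := by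
      intro S hS
      rw [Finset.mem_filter] at hS
      obtain ⟨_, hc, hD⟩ := hS
      have hne : S.Nonempty := Finset.card_pos.1 (by omega)
      obtain ⟨y, hy, h1, x, hx, hxy⟩ := hD.remove hne
      rw [Finset.mem_biUnion]
      refine ⟨S.erase y, ?_, ?_⟩
      · rw [Finset.mem_filter]
        exact ⟨Finset.mem_univ _, by rw [Finset.card_erase_of_mem hy]; omega, h1⟩
      · rw [Finset.mem_image]
        refine ⟨y, ?_, Finset.insert_erase hy⟩
        rw [Finset.mem_biUnion]
        exact ⟨x, hx, Finset.mem_filter.2 ⟨Finset.mem_univ _, hxy⟩⟩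
    refine (Finset.card_le_card hsub).trans ?_
    refine (Finset.card_biUnion_le_card_mul _ _ (q * Δ) ?_).trans ?_
    · intro S hS
      rw [Finset.mem_filter] at hS
      refine Finset.card_image_le.trans ?_
      refine (Finset.card_biUnion_le_card_mul _ _ Δ fun x _ => hrel x).trans ?_
      refine Nat.mul_le_mul_right _ ?_
      have := Finset.card_union_le W S
      omega
    · rw [pow_succ]
      exact Nat.mul_le_mul_right _ ih'

/-- one step of `sum_prod_le` -/
theorem sum_prod_succ {om : Fin N → ℝ} (h0 : ∀ x, 0 ≤ om x) (g : ℕ) :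
    ((g + 1 : ℕ) : ℝ) * ∑ G ∈ (Finset.univ : Finset (Fin N)).powersetCard (g + 1),
      ∏ x ∈ G, om x ≤
      (∑ x, om x) * ∑ G ∈ (Finset.univ : Finset (Fin N)).powersetCard g, ∏ x ∈ G, om x := by
  have h1 : ((g + 1 : ℕ) : ℝ) * ∑ G ∈ (Finset.univ : Finset (Fin N)).powersetCard (g + 1),
      ∏ x ∈ G, om x = ∑ G ∈ (Finset.univ : Finset (Fin N)).powersetCard (g + 1),
      ∑ x ∈ G, om x * ∏ y ∈ G.erase x, om y := by
    rw [Finset.mul_sum]
    refine Finset.sum_congr rfl fun G hG => ?_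
    rw [Finset.mem_powersetCard] at hG
    rw [Finset.sum_congr rfl fun x hx => Finset.mul_prod_erase G om hx, Finset.sum_const,
      hG.2, nsmul_eq_mul]
  have h2 : ∑ G ∈ (Finset.univ : Finset (Fin N)).powersetCard (g + 1),
      ∑ x ∈ G, om x * ∏ y ∈ G.erase x, om y =
      ∑ x, ∑ G ∈ ((Finset.univ : Finset (Fin N)).powersetCard (g + 1)).filter
        (fun G => x ∈ G), om x * ∏ y ∈ G.erase x, om y := by
    refine Finset.sum_comm' ?_
    intro G x
    rw [Finset.mem_filter]
    constructor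
    · rintro ⟨h1, h2⟩
      exact ⟨⟨h1, h2⟩, Finset.mem_univ _⟩
    · rintro ⟨⟨h1, h2⟩, _⟩
      exact ⟨h1, h2⟩
  rw [h1, h2, Finset.sum_mul]
  refine Finset.sum_le_sum fun x _ => ?_
  rw [← Finset.mul_sum]
  refine mul_le_mul_of_nonneg_left ?_ (h0 x)
  have h3 : ∑ G ∈ ((Finset.univ : Finset (Fin N)).powersetCard (g + 1)).filter
      (fun G => x ∈ G), ∏ y ∈ G.erase x, om y =
      ∑ G ∈ (((Finset.univ : Finset (Fin N)).powersetCard (g + 1)).filter
        (fun G => x ∈ G)).image (fun G => G.erase x), ∏ y ∈ G, om y := by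
    rw [Finset.sum_image]
    intro G hG G' hG' h
    rw [Finset.mem_coe, Finset.mem_filter] at hG hG'
    beta_reduce at h
    rw [← Finset.insert_erase hG.2, h, Finset.insert_erase hG'.2]
  rw [h3]
  refine Finset.sum_le_sum_of_subset_of_nonneg ?_ fun G _ _ => Finset.prod_nonneg fun y _ => h0 y
  intro G hG
  obtain ⟨G', hG', rfl⟩ := Finset.mem_image.1 hG
  rw [Finset.mem_filter, Finset.mem_powersetCard] at hG'
  rw [Finset.mem_powersetCard]
  refine ⟨Finset.subset_univ _, ?_⟩
  rw [Finset.card_erase_of_mem hG'.2]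
  omega

/-- the sum over the `g`-sets of the products of the weights -/
theorem sum_prod_le {om : Fin N → ℝ} (h0 : ∀ x, 0 ≤ om x) (h1 : ∑ x, om x ≤ 1) (g : ℕ) :
    (g.factorial : ℝ) * ∑ G ∈ (Finset.univ : Finset (Fin N)).powersetCard g, ∏ x ∈ G, om x ≤
      1 := by
  induction g with
  | zero =>
    rw [Finset.powersetCard_zero, Finset.sum_singleton, Finset.prod_empty, Nat.factorial_zero,
      Nat.cast_one, mul_one]
  | succ g ih =>
    have h2 := sum_prod_succ h0 g
    have h3 : 0 ≤ ∑ G ∈ (Finset.univ : Finset (Fin N)).powersetCard g, ∏ x ∈ G, om x :=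
      Finset.sum_nonneg fun G _ => Finset.prod_nonneg fun y _ => h0 y
    have h4 : (∑ x, om x) * ∑ G ∈ (Finset.univ : Finset (Fin N)).powersetCard g,
        ∏ x ∈ G, om x ≤ ∑ G ∈ (Finset.univ : Finset (Fin N)).powersetCard g,
        ∏ x ∈ G, om x := by
      nlinarith
    have h5 : (0 : ℝ) ≤ (g.factorial : ℝ) := Nat.cast_nonneg _
    rw [Nat.factorial_succ, Nat.cast_mul]
    calc (((g + 1 : ℕ) : ℝ) * (g.factorial : ℝ)) *
          ∑ G ∈ (Finset.univ : Finset (Fin N)).powersetCard (g + 1), ∏ x ∈ G, om x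
        = (g.factorial : ℝ) * (((g + 1 : ℕ) : ℝ) *
          ∑ G ∈ (Finset.univ : Finset (Fin N)).powersetCard (g + 1), ∏ x ∈ G, om x) := by ring
      _ ≤ (g.factorial : ℝ) * ∑ G ∈ (Finset.univ : Finset (Fin N)).powersetCard g,
          ∏ x ∈ G, om x := mul_le_mul_of_nonneg_left (h2.trans h4) h5
      _ ≤ 1 := ih

end C0q2
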