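import Pool.Agent.W_c0q2_h26.MP
import Pool.Agent.W_c0q2_h41.Lossy
import Pool.Agent.W_c0q2_h3.Wt

/-!
# MP_c0ce05_co, question 2: the main count for one set

`A` is the disjoint union of `T`, `G` and `S`. The edges inside `A \ T` and the stars from `G` to
`T` are disjoint.
-/

set_option autoImplicit false

namespace C0q2

open scoped Classical
open C0lo C0st

variable {N : ℕ}

/-- the edges inside `A \ T` and the stars from `G` to `T` -/
noncomputable def mcX (T A G : Finset (Fin N)) : Finset (Sym2 (Fin N)) :=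
  G.biUnion (C0q2W.star T) ∪ ed (A \ T)

variable {P : GP N} {T A G : Finset (Fin N)} {x : Fin N} {e : Sym2 (Fin N)}

theorem mem_star : e ∈ C0q2W.star T x ↔ ∃ h ∈ T, s(x, h) = e := by
  unfold C0q2W.star
  rw [Finset.mem_image]

theorem card_star (T : Finset (Fin N)) (x : Fin N) : (C0q2W.star T x).card = T.card := by
  unfold C0q2W.star
  refine Finset.card_image_of_injective _ fun h h' hh => ?_
  have h1 : s(x, h) = s(x, h') := hh
  rw [Sym2.eq_iff] at h1
  rcases h1 with h1 | h1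
  · exact h1.2
  · rw [h1.2, h1.1]

theorem star_disj {x y : Fin N} (hx : x ∉ T) (hxy : x ≠ y) :
    Disjoint (C0q2W.star T x) (C0q2W.star T y) := by
  rw [Finset.disjoint_left]
  intro e he he'
  obtain ⟨h, hh, rfl⟩ := mem_star.1 he
  obtain ⟨h', hh', h1⟩ := mem_star.1 he'
  rw [Sym2.eq_iff] at h1
  rcases h1 with h1 | h1
  · exact hxy h1.1.symm
  · exact hx (h1.2 ▸ hh')

theorem star_disj_ed (x : Fin N) (A : Finset (Fin N)) : Disjoint (C0q2W.star T x) (ed (A \ T)) := by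
  rw [Finset.disjoint_left]
  intro e he he'
  obtain ⟨h, hh, rfl⟩ := mem_star.1 he
  have h1 := (mem_ed.1 he').1 h (Sym2.mem_mk_right x h)
  exact (Finset.mem_sdiff.1 h1).2 hh

theorem star_sub (hT : T ⊆ A) (hx : x ∈ A \ T) : C0q2W.star T x ⊆ ed A := by
  intro e he
  obtain ⟨h, hh, rfl⟩ := mem_star.1 he
  rw [Finset.mem_sdiff] at hx
  rw [mem_ed]
  refine ⟨fun v hv => ?_, fun hd => ?_⟩
  · rcases Sym2.mem_iff.1 hv with rfl | rfl
    · exact hx.1
    · exact hT hh
  · have h1 : x = h := hd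
    exact hx.2 (h1 ▸ hh)

theorem mcX_sub (hT : T ⊆ A) (hG : G ⊆ A \ T) : mcX T A G ⊆ ed A := by
  unfold mcX
  refine Finset.union_subset ?_ (ed_mono Finset.sdiff_subset)
  intro e he
  obtain ⟨x, hx, he⟩ := Finset.mem_biUnion.1 he
  exact star_sub hT (hG hx) he

theorem stars_disj (T A G : Finset (Fin N)) : Disjoint (G.biUnion (C0q2W.star T)) (ed (A \ T)) := by
  rw [Finset.disjoint_biUnion_left]
  exact fun x _ => star_disj_ed x A

theorem stars_pw (hG : G ⊆ A \ T) :
    (G : Set (Fin N)).PairwiseDisjoint (C0q2W.star T) := by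
  intro x hx y hy hxy
  exact star_disj (Finset.mem_sdiff.1 (hG hx)).2 hxy

/-- the number of edges of `mcX` in a set -/
theorem card_mcX_inter (hG : G ⊆ A \ T) (C : Finset (Sym2 (Fin N))) :
    (mcX T A G ∩ C).card = ∑ x ∈ G, (C0q2W.star T x ∩ C).card + (ed (A \ T) ∩ C).card := by
  unfold mcX
  rw [Finset.union_inter_distrib_right, Finset.card_union_of_disjoint, Finset.biUnion_inter,
    Finset.card_biUnion]
  · intro x hx y hy hxy
    exact Finset.disjoint_of_subset_left Finset.inter_subset_left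
      (Finset.disjoint_of_subset_right Finset.inter_subset_left (stars_pw hG hx hy hxy))
  · exact Finset.disjoint_of_subset_left Finset.inter_subset_left
      (Finset.disjoint_of_subset_right Finset.inter_subset_left (stars_disj T A G))

theorem card_mcX (hG : G ⊆ A \ T) :
    (mcX T A G).card = G.card * T.card + (A \ T).card.choose 2 := by
  have h := card_mcX_inter hG (C := Finset.univ)
  simp only [Finset.inter_univ] at h
  rw [h, card_ed, Finset.sum_congr rfl fun x _ => card_star T x, Finset.sum_const, smul_eq_mul]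

/-- claimed edges in the stars and inside `A \ T` -/
theorem claimed_le (hT : T ⊆ A) (hG : G ⊆ A \ T) {u : ℕ} (hu : (ed A \ P.C).card ≤ u) :
    G.card * T.card + (A \ T).card.choose 2 ≤
      ∑ x ∈ G, (C0q2W.star T x ∩ P.C).card + (ed (A \ T) ∩ P.C).card + u := by
  rw [← card_mcX hG, ← card_mcX_inter hG]
  have h1 : (mcX T A G \ P.C).card ≤ u :=
    (Finset.card_le_card (Finset.sdiff_subset_sdiff (mcX_sub hT hG)
      (Finset.Subset.refl _))).trans hu
  have h2 := Finset.card_sdiff_add_card_inter (mcX T A G) P.C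
  omega

/-- links in the stars and inside `A \ T` -/
theorem links_le (hT : T ⊆ A) (hG : G ⊆ A \ T) :
    ∑ x ∈ G, lk P (C0q2W.star T x) (C0q2W.star T x) + lk P (ed (A \ T)) (ed (A \ T)) ≤
      lk P (ed A) (ed A) := by
  have h1 : ∑ x ∈ G, lk P (C0q2W.star T x) (C0q2W.star T x) =
      (G.biUnion (fun x => P.db.filter (fun d => d.1 ∈ C0q2W.star T x ∧ d.2 ∈ C0q2W.star T x))).card := by
    rw [Finset.card_biUnion]
    · rfl
    · intro x hx y hy hxy
      show Disjoint (P.db.filter (fun d => d.1 ∈ C0q2W.star T x ∧ d.2 ∈ C0q2W.star T x))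
        (P.db.filter (fun d => d.1 ∈ C0q2W.star T y ∧ d.2 ∈ C0q2W.star T y))
      rw [Finset.disjoint_left]
      intro d hd hd'
      rw [Finset.mem_filter] at hd hd'
      exact Finset.disjoint_left.1 (stars_pw hG hx hy hxy) hd.2.1 hd'.2.1
  have h2 : lk P (ed (A \ T)) (ed (A \ T)) =
      (P.db.filter (fun d => d.1 ∈ ed (A \ T) ∧ d.2 ∈ ed (A \ T))).card := rfl
  rw [h1, h2, ← Finset.card_union_of_disjoint]
  · refine Finset.card_le_card ?_
    intro d hd
    rw [Finset.mem_filter]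
    rcases Finset.mem_union.1 hd with h | h
    · obtain ⟨x, hx, h⟩ := Finset.mem_biUnion.1 h
      rw [Finset.mem_filter] at h
      exact ⟨h.1, star_sub hT (hG hx) h.2.1, star_sub hT (hG hx) h.2.2⟩
    · rw [Finset.mem_filter] at h
      exact ⟨h.1, ed_mono Finset.sdiff_subset h.2.1, ed_mono Finset.sdiff_subset h.2.2⟩
  · rw [Finset.disjoint_left]
    intro d hd hd'
    obtain ⟨x, hx, h⟩ := Finset.mem_biUnion.1 hd
    rw [Finset.mem_filter] at h hd'
    exact Finset.disjoint_left.1 (star_disj_ed x A) h.2.1 hd'.2.1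

/-- the weight of a vertex: `2 ^ (claimed edges to T) (3/4) ^ (links inside the star) / (2 N)` -/
noncomputable def omv (P : GP N) (T : Finset (Fin N)) (x : Fin N) : ℝ :=
  if Disjoint (C0q2W.star T x) P.K then
    2 ^ (C0q2W.star T x ∩ P.C).card * (3 / 4 : ℝ) ^ (lk P (C0q2W.star T x) (C0q2W.star T x)) / (2 * N)
  else 0

/-- the logarithm of the code word -/
theorem log_code (hN : 1 ≤ N) (hT : T ⊆ A) (hG : G ⊆ A \ T) (hA : Disjoint (ed A) P.K)
    {q Δ s : ℕ} (hq : 1 ≤ q) (hΔ : 1 ≤ Δ) :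
    -Real.logb 2 ((G.card.factorial : ℝ) * (∏ x ∈ G, omv P T x) *
      (((q * Δ : ℕ) : ℝ)⁻¹) ^ s) =
      G.card * (Real.logb 2 N + 1) - Real.logb 2 (G.card.factorial : ℝ) -
        ((∑ x ∈ G, (C0q2W.star T x ∩ P.C).card : ℕ) : ℝ) +
        Real.logb 2 (4 / 3) * ((∑ x ∈ G, lk P (C0q2W.star T x) (C0q2W.star T x) : ℕ) : ℝ) +
        s * Real.logb 2 ((q * Δ : ℕ) : ℝ) := by
  have hN0 : (0 : ℝ) < N := by exact_mod_cast hN
  have hqΔ : (0 : ℝ) < ((q * Δ : ℕ) : ℝ) := by exact_mod_cast Nat.mul_pos hq hΔ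
  have hf : (0 : ℝ) < (G.card.factorial : ℝ) := by exact_mod_cast Nat.factorial_pos _
  have hom : ∀ x ∈ G, omv P T x =
      2 ^ (C0q2W.star T x ∩ P.C).card * (3 / 4 : ℝ) ^ (lk P (C0q2W.star T x) (C0q2W.star T x)) / (2 * N) := by
    intro x hx
    unfold omv
    rw [if_pos (Finset.disjoint_of_subset_left (star_sub hT (hG hx)) hA)]
  have hpos : ∀ x ∈ G, omv P T x ≠ 0 := by
    intro x hx
    rw [hom x hx]
    positivity
  have hprod : (∏ x ∈ G, omv P T x) ≠ 0 := Finset.prod_ne_zero_iff.2 hpos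
  have hl43 : Real.logb 2 (3 / 4 : ℝ) = -Real.logb 2 (4 / 3) := by
    rw [← Real.logb_inv]
    norm_num
  rw [Real.logb_mul (mul_ne_zero hf.ne' hprod) (by positivity), Real.logb_mul hf.ne' hprod,
    Real.logb_prod _ _ hpos, Real.logb_pow, Real.logb_inv]
  have h1 : ∀ x ∈ G, Real.logb 2 (omv P T x) = ((C0q2W.star T x ∩ P.C).card : ℝ) -
      Real.logb 2 (4 / 3) * (lk P (C0q2W.star T x) (C0q2W.star T x) : ℝ) - (Real.logb 2 N + 1) := by
    intro x hx
    rw [hom x hx, Real.logb_div (by positivity) (by positivity),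
      Real.logb_mul (by positivity) (by positivity), Real.logb_mul (by norm_num) hN0.ne',
      Real.logb_pow, Real.logb_pow, hl43, Real.logb_self_eq_one (by norm_num)]
    ring
  rw [Finset.sum_congr rfl h1, Finset.sum_sub_distrib, Finset.sum_sub_distrib,
    ← Finset.mul_sum, Finset.sum_const, nsmul_eq_mul]
  push_cast
  ring

/-- **The main count for one set.** -/
theorem bracket (hN : 1 ≤ N) (hT : T ⊆ A) {S : Finset (Fin N)} (hS : S ⊆ A \ T)
    (hAK : Disjoint (ed A) P.K) {q Δ s u D : ℕ} (hA : A.card = q) (hs : S.card = s)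
    (hq : 1 ≤ q) (hΔ : 1 ≤ Δ) (hu : (ed A \ P.C).card ≤ u) (hD : lk P (ed A) (ed A) ≤ D)
    (Ls : Finset (Sym2 (Fin N))) :
    -Real.logb 2 (((q - T.card - s).factorial : ℝ) * (∏ x ∈ (A \ T) \ S, omv P T x) *
      (((q * Δ : ℕ) : ℝ)⁻¹) ^ s) - (((ed (A \ T) ∩ P.C) \ Ls).card : ℝ) +
        Real.logb 2 (4 / 3) * (lk P (ed (A \ T)) (ed (A \ T)) : ℝ) ≤
      (q - T.card - s : ℕ) * (Real.logb 2 N + 1) -
        Real.logb 2 ((q - T.card - s).factorial : ℝ) -
        (q - T.card - s : ℕ) * T.card - ((q - T.card : ℕ).choose 2 : ℕ) + u +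
        Real.logb 2 (4 / 3) * D + s * Real.logb 2 ((q * Δ : ℕ) : ℝ) + Ls.card := by
  obtain ⟨G, hG⟩ : ∃ G, G = (A \ T) \ S := ⟨_, rfl⟩
  have hGs : G ⊆ A \ T := hG ▸ Finset.sdiff_subset
  have c1 : (A \ T).card = q - T.card := by
    rw [Finset.card_sdiff_of_subset hT, hA]
  have c2 : G.card = q - T.card - s := by
    rw [hG, Finset.card_sdiff_of_subset hS, c1, hs]
  have h1 := log_code (P := P) hN hT hGs hAK (s := s) hq hΔ
  have h2 := claimed_le (P := P) hT hGs hu
  have h3 := links_le (P := P) hT hGs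
  rw [c1, c2] at h2
  rw [c2] at h1
  rw [← hG, h1]
  have h4 : (ed (A \ T) ∩ P.C).card ≤ ((ed (A \ T) ∩ P.C) \ Ls).card + Ls.card := by
    have h5 := Finset.card_sdiff_add_card_inter (ed (A \ T) ∩ P.C) Ls
    have h6 : ((ed (A \ T) ∩ P.C) ∩ Ls).card ≤ Ls.card :=
      Finset.card_le_card Finset.inter_subset_right
    omega
  have hg : 0 ≤ Real.logb 2 (4 / 3) := Real.logb_nonneg (by norm_num) (by norm_num)
  have h5 : ((∑ x ∈ G, lk P (C0q2W.star T x) (C0q2W.star T x) : ℕ) : ℝ) +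
      (lk P (ed (A \ T)) (ed (A \ T)) : ℝ) ≤ D := by
    exact_mod_cast h3.trans hD
  have h6 : ((q - T.card - s : ℕ) : ℝ) * T.card + ((q - T.card : ℕ).choose 2 : ℕ) ≤
      ((∑ x ∈ G, (C0q2W.star T x ∩ P.C).card : ℕ) : ℝ) + ((ed (A \ T) ∩ P.C).card : ℝ) + u := by
    exact_mod_cast h2
  have h7 : ((ed (A \ T) ∩ P.C).card : ℝ) ≤ (((ed (A \ T) ∩ P.C) \ Ls).card : ℝ) + Ls.card := by
    exact_mod_cast h4
  nlinarith [mul_le_mul_of_nonneg_left h5 hg]

end C0q2
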