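import Pool.Agent.W_c0q2_h26.MB

/-!
# MP_c0ce05_co, question 2: the class of the main count

Data: the core `T`, at most `Δ` heads for every vertex, the numbers of the claimed edges and of the
links of the stars, and the number `s` of the derived vertices.
-/

set_option autoImplicit false

namespace C0q2

open scoped Classical
open C0lo C0st

/-- the data of the class of the main count -/
abbrev MDat (N q Δ : ℕ) : Type :=
  Finset (Fin N) × (Fin N → Fin Δ → Fin N) × (Fin N → Option (Fin (q + 1) × Fin (q + 1))) ×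
    Fin (q + 1)

variable {N q Δ : ℕ}

/-- the relation of the data -/
def mdRel (d : MDat N q Δ) (x y : Fin N) : Prop := ∃ i, d.2.1 x i = y

/-- the vertex weights of the data -/
noncomputable def mdOm (d : MDat N q Δ) (x : Fin N) : ℝ :=
  match d.2.2.1 x with
  | none => 0
  | some c => 2 ^ (c.1 : ℕ) * (3 / 4 : ℝ) ^ (c.2 : ℕ) / (2 * N)

/-- the prior of the class of the main count -/
noncomputable def mdA (d : MDat N q Δ) (A : Finset (Fin N)) : ℝ :=
  if ∑ x, mdOm d x ≤ 1 then mcP (mdRel d) (mdOm d) d.1 q Δ (d.2.2.2 : ℕ) A else 0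

theorem mdOm_nonneg (d : MDat N q Δ) (x : Fin N) : 0 ≤ mdOm d x := by
  unfold mdOm
  split
  · exact le_rfl
  · positivity

theorem mdA_nonneg (d : MDat N q Δ) (A : Finset (Fin N)) : 0 ≤ mdA d A := by
  unfold mdA
  split_ifs
  · exact mcP_nonneg (mdOm_nonneg d) A
  · exact le_rfl

theorem card_mdRel (d : MDat N q Δ) (x : Fin N) :
    (Finset.univ.filter (fun y => mdRel d x y)).card ≤ Δ := by
  have h : (Finset.univ.filter (fun y => mdRel d x y)) ⊆ Finset.univ.image (d.2.1 x) := by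
    intro y hy
    obtain ⟨i, hi⟩ := (Finset.mem_filter.1 hy).2
    exact Finset.mem_image.2 ⟨i, Finset.mem_univ _, hi⟩
  refine (Finset.card_le_card h).trans (Finset.card_image_le.trans ?_)
  rw [Finset.card_univ, Fintype.card_fin]

theorem sum_mdA (hq : 1 ≤ q) (hΔ : 1 ≤ Δ) (d : MDat N q Δ) : ∑ A, mdA d A ≤ 1 := by
  unfold mdA
  by_cases h : ∑ x, mdOm d x ≤ 1
  · simp only [if_pos h]
    exact sum_mcP (mdOm_nonneg d) h (card_mdRel d) hΔ hq
  · simp only [if_neg h]
    rw [Finset.sum_const_zero]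
    exact zero_le_one

/-- the number of the data -/
theorem card_MDat (N q Δ : ℕ) : Fintype.card (MDat N q Δ) =
    2 ^ N * ((N ^ Δ) ^ N * (((q + 1) * (q + 1) + 1) ^ N * (q + 1))) := by
  simp only [MDat, Fintype.card_prod, Fintype.card_finset, Fintype.card_fin,
    Fintype.card_fun, Fintype.card_option]

/-- the links inside a star -/
theorem lk_star_le {P : GP N} {Dl : ℕ} (hP : P.Valid Dl) (Z : Finset (Sym2 (Fin N))) :
    lk P Z Z ≤ Z.card := by
  unfold lk
  refine Finset.card_le_card_of_injOn Prod.fst ?_ ?_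
  · intro d hd
    exact (Finset.mem_filter.1 hd).2.1
  · intro d hd d' hd' h
    exact hP.fn d (Finset.mem_filter.1 hd).1 d' (Finset.mem_filter.1 hd').1 h

/-- out-degree of the arrows -/
theorem card_Ar {P : GP N} {Dl : ℕ} (hP : P.Valid Dl) (R : Finset (Fin N)) (x : Fin N) :
    (Finset.univ.filter (fun y => Ar P R x y)).card ≤ R.card * (2 + 2 * Dl) := by
  have h1 : (Finset.univ.filter (fun y => Ar P R x y)) ⊆ R.biUnion (fun r => NN P s(x, r)) := by
    intro y hy
    obtain ⟨r, hr, h⟩ := (Finset.mem_filter.1 hy).2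
    exact Finset.mem_biUnion.2 ⟨r, hr, h⟩
  refine (Finset.card_le_card h1).trans (Finset.card_biUnion_le_card_mul _ _ _ fun r _ => ?_)
  have h2 : NN P s(x, r) ⊆ (P.db.filter (fun d => d.1 = s(x, r))).biUnion
      (fun d => d.2.toFinset) ∪ (P.db.filter (fun d => d.2 = s(x, r))).biUnion
      (fun d => d.1.toFinset) := by
    intro y hy
    obtain ⟨d, hd, h | h⟩ := mem_NN.1 hy
    · exact Finset.mem_union_left _ (Finset.mem_biUnion.2 ⟨d, Finset.mem_filter.2 ⟨hd, h.1⟩,
        Sym2.mem_toFinset.2 h.2⟩)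
    · exact Finset.mem_union_right _ (Finset.mem_biUnion.2 ⟨d, Finset.mem_filter.2 ⟨hd, h.1⟩,
        Sym2.mem_toFinset.2 h.2⟩)
  have h3 : ∀ e : Sym2 (Fin N), e.toFinset.card ≤ 2 := by
    intro e
    rw [Sym2.card_toFinset]
    split_ifs <;> omega
  have h4 : (P.db.filter (fun d => d.1 = s(x, r))).card ≤ 1 := by
    rw [Finset.card_le_one]
    intro d hd d' hd'
    rw [Finset.mem_filter] at hd hd'
    exact hP.fn d hd.1 d' hd'.1 (hd.2.trans hd'.2.symm)
  have h5 := Finset.card_biUnion_le_card_mul (P.db.filter (fun d => d.1 = s(x, r)))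
    (fun d => d.2.toFinset) 2 (fun d _ => h3 d.2)
  have h6 := Finset.card_biUnion_le_card_mul (P.db.filter (fun d => d.2 = s(x, r)))
    (fun d => d.1.toFinset) 2 (fun d _ => h3 d.1)
  have h7 := hP.indeg s(x, r)
  have h8 := (Finset.card_le_card h2).trans (Finset.card_union_le _ _)
  omega

/-- The data of a position: every code word is at most the prior. -/
theorem exists_data {P : GP N} {Dl : ℕ} (hP : P.Valid Dl) {R T : Finset (Fin N)} {s : ℕ}
    (hΔ : 1 ≤ Δ) (hR : R.card * (2 + 2 * Dl) ≤ Δ) (hT : T.card ≤ q) (hs : s ≤ q)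
    (hw : ∑ x ∈ Finset.univ.filter (fun x => x ∉ T), omv P T x ≤ 1) :
    ∃ d : MDat N q Δ, d.1 = T ∧ ∀ A S : Finset (Fin N), T ⊆ A → A.card = q → S ⊆ A \ T →
      S.card = s → DW (Ar P R) (A \ S) S →
      ((q - T.card - s).factorial : ℝ) * (∏ x ∈ (A \ T) \ S, omv P T x) *
        (((q * Δ : ℕ) : ℝ)⁻¹) ^ s ≤ mdA d A := by
  -- the heads
  have hh : ∀ x : Fin N, ∃ h : Fin Δ → Fin N, ∀ y, Ar P R x y → ∃ i, h i = y := by
    intro x
    obtain ⟨O, hO⟩ : ∃ O : Finset (Fin N), O = Finset.univ.filter (fun y => Ar P R x y) :=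
      ⟨_, rfl⟩
    have hc : O.card ≤ Δ := hO ▸ (card_Ar hP R x).trans hR
    by_cases hne : O.Nonempty
    · obtain ⟨y0, hy0⟩ := hne
      refine ⟨fun i => if h : (i : ℕ) < O.card then (O.equivFin.symm ⟨i, h⟩ : Fin N) else y0,
        fun y hy => ?_⟩
      have hyO : y ∈ O := by
        rw [hO]
        exact Finset.mem_filter.2 ⟨Finset.mem_univ _, hy⟩
      have hlt := (O.equivFin ⟨y, hyO⟩).2
      refine ⟨⟨(O.equivFin ⟨y, hyO⟩ : ℕ), lt_of_lt_of_le hlt hc⟩, ?_⟩
      dsimp only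
      rw [dif_pos hlt]
      have h2 : (⟨((O.equivFin ⟨y, hyO⟩ : Fin O.card) : ℕ), hlt⟩ : Fin O.card) =
          O.equivFin ⟨y, hyO⟩ := Fin.ext rfl
      rw [h2, Equiv.symm_apply_apply]
    · refine ⟨fun _ => x, fun y hy => ?_⟩
      exact absurd ⟨y, hO ▸ Finset.mem_filter.2 ⟨Finset.mem_univ _, hy⟩⟩ hne
  choose h hh using hh
  have hc1 : ∀ x, (C0q2W.star T x ∩ P.C).card < q + 1 := by
    intro x
    have h1 : (C0q2W.star T x ∩ P.C).card ≤ (C0q2W.star T x).card :=
      Finset.card_le_card Finset.inter_subset_left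
    rw [card_star] at h1
    omega
  have hc2 : ∀ x, lk P (C0q2W.star T x) (C0q2W.star T x) < q + 1 := by
    intro x
    have h1 := lk_star_le hP (C0q2W.star T x)
    rw [card_star] at h1
    omega
  obtain ⟨d, hd⟩ : ∃ d : MDat N q Δ, d = (T, h, fun x =>
      if x ∉ T ∧ Disjoint (C0q2W.star T x) P.K then
        some (⟨(C0q2W.star T x ∩ P.C).card, hc1 x⟩, ⟨lk P (C0q2W.star T x) (C0q2W.star T x), hc2 x⟩)
      else none, ⟨s, by omega⟩) := ⟨_, rfl⟩
  have hom : ∀ x, x ∉ T → mdOm d x = omv P T x := by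
    intro x hx
    unfold mdOm omv
    by_cases hk : Disjoint (C0q2W.star T x) P.K
    · have h1 : d.2.2.1 x = some (⟨(C0q2W.star T x ∩ P.C).card, hc1 x⟩,
          ⟨lk P (C0q2W.star T x) (C0q2W.star T x), hc2 x⟩) := by
        rw [hd]
        exact if_pos ⟨hx, hk⟩
      rw [h1, if_pos hk]
    · have h1 : d.2.2.1 x = none := by
        rw [hd]
        exact if_neg fun h => hk h.2
      rw [h1, if_neg hk]
  have hom0 : ∀ x, x ∈ T → mdOm d x = 0 := by
    intro x hx
    unfold mdOm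
    have h1 : d.2.2.1 x = none := by
      rw [hd]
      exact if_neg fun h => h.1 hx
    rw [h1]
  have hsum : ∑ x, mdOm d x ≤ 1 := by
    rw [← Finset.sum_filter_add_sum_filter_not Finset.univ (fun x => x ∉ T)]
    have h1 : ∑ x ∈ Finset.univ.filter (fun x => ¬ x ∉ T), mdOm d x = 0 := by
      refine Finset.sum_eq_zero fun x hx => hom0 x ?_
      have := (Finset.mem_filter.1 hx).2
      rwa [not_not] at this
    rw [h1, add_zero, Finset.sum_congr rfl fun x hx => hom x (Finset.mem_filter.1 hx).2]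
    exact hw
  refine ⟨d, by rw [hd], fun A S hTA hA hS hSc hD => ?_⟩
  unfold mdA
  rw [if_pos hsum]
  have hT' : d.1 = T := by rw [hd]
  have hs' : (d.2.2.2 : ℕ) = s := by rw [hd]
  rw [hT', hs']
  have h1 : ∏ x ∈ (A \ T) \ S, omv P T x = ∏ x ∈ (A \ T) \ S, mdOm d x := by
    refine Finset.prod_congr rfl fun x hx => (hom x ?_).symm
    exact (Finset.mem_sdiff.1 (Finset.mem_sdiff.1 hx).1).2
  rw [h1]
  refine le_mcP (mdOm_nonneg d) hTA hA hS hSc (hD.mono_rel fun x y hxy => ?_)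
  obtain ⟨i, hi⟩ := hh x y hxy
  refine ⟨i, ?_⟩
  rw [hd]
  exact hi

end C0q2
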