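import Pool.Agent.W_c0q2_h26.MNum
import Pool.Agent.W_c0q2_h26.MD

/-!
# MP_c0ce05_co, question 2: the number of bits of the main class
-/

set_option autoImplicit false

namespace C0q2

open scoped Classical
open C0lo C0st

variable {N q : ℕ} {L l : ℝ}

theorem MBit_logb_le {x : ℝ} (hx : 1 ≤ x) : Real.logb 2 x ≤ 2 * x := by
  unfold Real.logb
  have h1 := Real.log_two_gt_d9
  rw [div_le_iff₀ (by linarith)]
  have h2 := Real.log_le_sub_one_of_pos (show 0 < x by linarith)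
  nlinarith

theorem MBit_pow (h : Big N q L l) : L ^ 7 ≤ (2 : ℝ) ^ (L / 800000) := by
  have h1 := MN_l h
  have h2 := h.l_sm
  have h3 := h.l_big
  norm_num at h2 h3
  have h4 : L ^ 7 = (2 : ℝ) ^ (l * 7) := by
    rw [Real.rpow_mul (by norm_num), h1]
    norm_num
  rw [h4]
  refine Real.rpow_le_rpow_of_exponent_le (by norm_num) ?_
  linarith

theorem MBit_m (h : Big N q L l) : (N : ℝ) * L ^ 7 ≤ mMC N := by
  obtain ⟨h1, h2⟩ := MN_N h
  have hN0 : (0 : ℝ) < N := by linarith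
  have h3 : (N : ℝ) ^ (1 + 1 / 800000 : ℝ) = N * (2 : ℝ) ^ (L / 800000) := by
    rw [Real.rpow_add hN0, Real.rpow_one]
    congr 1
    rw [← h1, ← Real.rpow_mul (by norm_num)]
    congr 1
    ring
  calc (N : ℝ) * L ^ 7 ≤ N * (2 : ℝ) ^ (L / 800000) :=
        mul_le_mul_of_nonneg_left (MBit_pow h) hN0.le
    _ = (N : ℝ) ^ (1 + 1 / 800000 : ℝ) := h3.symm
    _ ≤ mMC N := Nat.le_ceil _

/-- the number of bits of the main class -/
theorem MBit_le (h : Big N q L l) {Δ : ℕ} (hΔ : (Δ : ℝ) ≤ L ^ 4) :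
    (Real.logb 2 (Fintype.card (MDat N q Δ) : ℝ) + Real.logb 2 (1 / (1 / 64))) / mMC N ≤ 1 := by
  obtain ⟨h1, h2⟩ := MN_N h
  obtain ⟨hq1, hq2⟩ := MN_q h
  have hL := MN_L h
  norm_num at hL hq1
  have hL0 : 0 < L := by linarith
  have hN0 : (0 : ℝ) < N := by linarith
  have hm := MBit_m h
  have hm0 : (0 : ℝ) < mMC N := lt_of_lt_of_le (by positivity) hm
  rw [div_le_one hm0]
  refine le_trans ?_ hm
  rw [card_MDat]
  have hq0 : (0 : ℝ) < (q : ℝ) := by linarith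
  have e1 : Real.logb 2 ((2 ^ N * ((N ^ Δ) ^ N * (((q + 1) * (q + 1) + 1) ^ N * (q + 1))) : ℕ) : ℝ) =
      N + (N * (Δ * L) + (N * Real.logb 2 (((q : ℝ) + 1) * (q + 1) + 1) +
        Real.logb 2 ((q : ℝ) + 1))) := by
    push_cast
    rw [Real.logb_mul (by positivity) (by positivity),
      Real.logb_mul (by positivity) (by positivity),
      Real.logb_mul (by positivity) (by positivity), Real.logb_pow, Real.logb_pow,
      Real.logb_pow, Real.logb_pow, Real.logb_self_eq_one (by norm_num), ← h.L_def]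
    ring
  have e2 : Real.logb 2 (1 / (1 / 64)) = 6 := by
    have : (1 : ℝ) / (1 / 64) = 2 ^ 6 := by norm_num
    rw [this, Real.logb_pow, Real.logb_self_eq_one (by norm_num)]
    norm_num
  rw [e1, e2]
  have h3 := MBit_logb_le (x := ((q : ℝ) + 1) * (q + 1) + 1) (by nlinarith)
  have h4 := MBit_logb_le (x := (q : ℝ) + 1) (by linarith)
  have h5 : ((q : ℝ) + 1) * (q + 1) + 1 ≤ 9 * L ^ 2 := by
    have : (q : ℝ) + 1 ≤ 2.5 * L := by
      norm_num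
      linarith
    nlinarith
  have h6 : (Δ : ℝ) * L ≤ L ^ 5 := by
    calc (Δ : ℝ) * L ≤ L ^ 4 * L := mul_le_mul_of_nonneg_right hΔ hL0.le
      _ = L ^ 5 := by ring
  have h7 : Real.logb 2 (((q : ℝ) + 1) * (q + 1) + 1) ≤ 18 * L ^ 2 := by linarith
  have h8 : Real.logb 2 ((q : ℝ) + 1) ≤ 6 * L := by
    have : (q : ℝ) + 1 ≤ 3 * L := by linarith
    linarith
  have h9 : (N : ℝ) * (Δ * L) ≤ N * L ^ 5 := mul_le_mul_of_nonneg_left h6 hN0.le
  have h10 : (N : ℝ) * Real.logb 2 (((q : ℝ) + 1) * (q + 1) + 1) ≤ N * (18 * L ^ 2) :=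
    mul_le_mul_of_nonneg_left h7 hN0.le
  have h11 : L ≤ N * L := by nlinarith
  have h12 : (6 : ℝ) ≤ N * 6 := by linarith
  have h13 : 1 + L ^ 5 + 18 * L ^ 2 + 6 * L + 6 ≤ L ^ 7 := by
    have a1 : L ≤ L ^ 2 := by nlinarith
    have a2 : (100 : ℝ) * L ^ 2 ≤ L ^ 5 := by
      have b1 : (100 : ℝ) ≤ L ^ 3 := by
        have b2 : L ^ 1 ≤ L ^ 3 := pow_le_pow_right₀ (by linarith) (by norm_num)
        linarith
      calc (100 : ℝ) * L ^ 2 ≤ L ^ 3 * L ^ 2 := mul_le_mul_of_nonneg_right b1 (by positivity)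
        _ = L ^ 5 := by ring
    have a3 : (2 : ℝ) * L ^ 5 ≤ L ^ 7 := by
      have b1 : (2 : ℝ) ≤ L ^ 2 := by linarith
      calc (2 : ℝ) * L ^ 5 ≤ L ^ 2 * L ^ 5 := mul_le_mul_of_nonneg_right b1 (by positivity)
        _ = L ^ 7 := by ring
    linarith
  have h14 := mul_le_mul_of_nonneg_left h13 hN0.le
  linarith

/-- the out-degree bound -/
theorem MBit_deg (h : Big N q L l) {p : ℝ} (hp : 10 ^ 17 * p ≤ L) {R : Finset (Fin N)} {Dl : ℕ}
    (hR : (R.card : ℝ) ≤ p / 20000) (hDl : (Dl : ℝ) ≤ 10 * L ^ 2) :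
    R.card * (2 + 2 * Dl) ≤ ⌊L ^ 4⌋₊ := by
  have hL := MN_L h
  norm_num at hL hp
  refine Nat.le_floor ?_
  push_cast
  have h1 : (R.card : ℝ) ≤ L / 20000 := by
    have : 0 ≤ (R.card : ℝ) := Nat.cast_nonneg _
    linarith
  have h2 : (2 : ℝ) + 2 * Dl ≤ 22 * L ^ 2 := by nlinarith
  have h3 : (0 : ℝ) ≤ 2 + 2 * Dl := by positivity
  calc (R.card : ℝ) * (2 + 2 * Dl) ≤ L / 20000 * (22 * L ^ 2) :=
        mul_le_mul h1 h2 h3 (by linarith)
    _ ≤ L ^ 4 := by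
        have h4 : (0 : ℝ) ≤ L ^ 3 := by positivity
        have h5 : L ^ 3 * 1 ≤ L ^ 3 * L := mul_le_mul_of_nonneg_left (by linarith) h4
        nlinarith

/-- the length of a pointer -/
theorem MBit_ptr (h : Big N q L l) :
    Real.logb 2 ((q * ⌊L ^ 4⌋₊ : ℕ) : ℝ) ≤ 6 * l ∧ 1 ≤ ⌊L ^ 4⌋₊ := by
  obtain ⟨_, hlog⟩ := MN_logq h
  obtain ⟨hq1, _⟩ := MN_q h
  have hL := MN_L h
  have hl := h.l_big
  norm_num at hL hl hq1
  have hL4 : (1 : ℝ) ≤ L ^ 4 := one_le_pow₀ (by linarith)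
  have h1 : 1 ≤ ⌊L ^ 4⌋₊ := Nat.le_floor (by exact_mod_cast hL4)
  refine ⟨?_, h1⟩
  have h2 : (0 : ℝ) < (⌊L ^ 4⌋₊ : ℝ) := by exact_mod_cast h1
  have h3 : (0 : ℝ) < q := by linarith
  rw [Nat.cast_mul, Real.logb_mul h3.ne' h2.ne']
  have h4 : Real.logb 2 (⌊L ^ 4⌋₊ : ℝ) ≤ Real.logb 2 (L ^ 4) :=
    Real.logb_le_logb_of_le (by norm_num) h2 (Nat.floor_le (by linarith))
  rw [Real.logb_pow, ← h.l_def] at h4
  push_cast at h4
  linarith

end C0q2
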