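import Pool.Agent.W_c0q2_h20.Iface

/-!
# MP_c0ce05_co, question 2: the numbers of the main count
-/

set_option autoImplicit false

namespace C0q2

open scoped Classical
open C0lo C0st

theorem MN_g0_nonneg : 0 ≤ g0 := Real.logb_nonneg (by norm_num) (by norm_num)

/-- `log₂ (4/3) ≤ 22/53` -/
theorem MN_g0_le : g0 ≤ 22 / 53 := by
  have h1 : (53 : ℝ) * g0 ≤ 22 := by
    have h2 : (53 : ℝ) * g0 = Real.logb 2 ((4 / 3 : ℝ) ^ 53) := by
      rw [Real.logb_pow]
      norm_num [g0]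
    have h3 : (22 : ℝ) = Real.logb 2 ((2 : ℝ) ^ 22) := by
      rw [Real.logb_pow, Real.logb_self_eq_one (by norm_num)]
      norm_num
    rw [h2, h3]
    exact Real.logb_le_logb_of_le (by norm_num) (by norm_num) (by norm_num)
  linarith

/-- `log₂ g! ≥ g log₂ q - 1.5 q` -/
theorem MN_fact {g q : ℕ} (hq : 1 ≤ q) :
    (g : ℝ) * Real.logb 2 (q : ℝ) - 1.5 * q ≤ Real.logb 2 (g.factorial : ℝ) := by
  have hq0 : (0 : ℝ) < q := by exact_mod_cast hq
  have hf : (0 : ℝ) < (g.factorial : ℝ) := by exact_mod_cast Nat.factorial_pos g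
  have h1 := Real.pow_div_factorial_le_exp (q : ℝ) hq0.le g
  have h2 : Real.logb 2 ((q : ℝ) ^ g / (g.factorial : ℝ)) ≤ Real.logb 2 (Real.exp q) :=
    Real.logb_le_logb_of_le (by norm_num) (by positivity) h1
  rw [Real.logb_div (by positivity) hf.ne', Real.logb_pow] at h2
  have h3 : Real.logb 2 (Real.exp q) ≤ 1.5 * q := by
    unfold Real.logb
    rw [Real.log_exp, div_le_iff₀ (Real.log_pos (by norm_num))]
    have := Real.log_two_gt_d9
    nlinarith
  linarith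

section big

variable {N q : ℕ} {L l : ℝ}

theorem MN_L (h : Big N q L l) : 10 ^ 57 ≤ L := by
  have h1 := h.l_big
  have h2 := h.l_sm
  norm_num at h1 h2 ⊢
  linarith

theorem MN_N (h : Big N q L l) : (2 : ℝ) ^ L = N ∧ (1 : ℝ) ≤ N := by
  have h1 := MN_L h
  have hN : (0 : ℝ) < N := by
    rcases Nat.eq_zero_or_pos N with h0 | h0
    · exfalso
      have h2 := h.L_def
      rw [h0] at h2
      simp at h2
      norm_num at h1
      linarith
    · exact_mod_cast h0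
  refine ⟨?_, ?_⟩
  · rw [h.L_def]
    exact Real.rpow_logb (by norm_num) (by norm_num) hN
  · have h3 : 0 < N := by exact_mod_cast hN
    exact_mod_cast h3

theorem MN_l (h : Big N q L l) : (2 : ℝ) ^ l = L := by
  have h1 := MN_L h
  rw [h.l_def]
  refine Real.rpow_logb (by norm_num) (by norm_num) ?_
  norm_num at h1
  linarith

theorem MN_q (h : Big N q L l) : 1.9 * L ≤ q ∧ (q : ℝ) ≤ 2 * L := by
  have h1 := h.l_big
  have h2 := h.l_sm
  have h3 := h.q_ge
  have h4 := h.q_le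
  norm_num at h1 h2 h3 h4 ⊢
  constructor <;> linarith

/-- `l ≤ log₂ q ≤ l + 1` -/
theorem MN_logq (h : Big N q L l) : l ≤ Real.logb 2 (q : ℝ) ∧ Real.logb 2 (q : ℝ) ≤ l + 1 := by
  obtain ⟨h1, h2⟩ := MN_q h
  have h3 := MN_L h
  norm_num at h3
  have hL : 0 < L := by linarith
  constructor
  · rw [h.l_def]
    exact Real.logb_le_logb_of_le (by norm_num) hL (by linarith)
  · have h4 : Real.logb 2 (q : ℝ) ≤ Real.logb 2 (2 * L) :=
      Real.logb_le_logb_of_le (by norm_num) (by linarith) h2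
    rw [Real.logb_mul (by norm_num) hL.ne', Real.logb_self_eq_one (by norm_num), ← h.l_def] at h4
    linarith

/-- the final inequality of the main count -/
theorem MN_final (h : Big N q L l) {p : ℝ} (hp1 : 10 ^ 15 ≤ p) (hp2 : 10 ^ 17 * p ≤ L)
    {t s u D : ℕ} {lq : ℝ} (hD : (D : ℝ) = 2 * p * L) (hu : 400 * (u : ℝ) ≤ D)
    (ht : (t : ℝ) ≤ 1.3 * p) (hs : (s : ℝ) ≤ 0.86 * p + 1) (hst : 0.86 * p ≤ (t : ℝ) + s)
    (hlq : lq ≤ 6 * l) :
    ((q - t - s : ℕ) : ℝ) * (L + 1) - Real.logb 2 ((q - t - s).factorial : ℝ) -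
      ((q - t - s : ℕ) : ℝ) * t - ((q - t : ℕ).choose 2 : ℕ) + u + g0 * D + s * lq +
      ((24000000 * p) ^ 2 / 2 + 640010 * L) + 3 < 0 := by
  obtain ⟨hq1, hq2⟩ := MN_q h
  obtain ⟨hlog1, hlog2⟩ := MN_logq h
  have hL := MN_L h
  have hl1 := h.l_big
  have hl2 := h.l_sm
  have hqg := h.q_ge
  have hg0 := MN_g0_le
  have hg1 := MN_g0_nonneg
  norm_num at hL hp1 hp2 hl1 hl2 hqg hq1
  have hp0 : 0 < p := by linarith
  have hL0 : 0 < L := by linarith
  have hl0 : 0 < l := by linarith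
  have ht0 : (0 : ℝ) ≤ t := Nat.cast_nonneg _
  have hs0 : (0 : ℝ) ≤ s := Nat.cast_nonneg _
  have hts : (t : ℝ) + s ≤ q := by linarith
  have hts' : t + s ≤ q := by exact_mod_cast hts
  have e1 : ((q - t - s : ℕ) : ℝ) = (q : ℝ) - t - s := by
    rw [Nat.cast_sub (by omega), Nat.cast_sub (by omega)]
  have e2 : (((q - t : ℕ).choose 2 : ℕ) : ℝ) = ((q : ℝ) - t) * ((q : ℝ) - t - 1) / 2 := by
    rw [Nat.cast_choose_two, Nat.cast_sub (by omega)]
  have hf := MN_fact (g := q - t - s) (q := q) (by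
    have : (0 : ℝ) < q := by linarith
    exact_mod_cast this)
  rw [e1] at hf
  rw [e1, e2]
  obtain ⟨lgq, hlgq⟩ : ∃ x, x = Real.logb 2 (q : ℝ) := ⟨_, rfl⟩
  rw [← hlgq] at hf hlog1 hlog2
  obtain ⟨Q, hQ⟩ : ∃ x : ℝ, x = q := ⟨_, rfl⟩
  rw [← hQ] at hf hq1 hq2 hqg hts ⊢
  -- the main identity
  have k1 : ((Q - t - s) * (L + 1) - ((Q - t - s) * lgq - 1.5 * Q) - (Q - t - s) * t -
      (Q - t) * (Q - t - 1) / 2) =
      (Q - t) * (L + 3 / 2 - lgq - Q / 2 - t / 2) - s * (L + 1 - lgq - t) + 1.5 * Q := by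
    ring
  have k2 : (Q - t) * (L + 3 / 2 - lgq - Q / 2 - t / 2) ≤ (Q - t) * (-4 * 10 ^ 15 - t / 2) := by
    refine mul_le_mul_of_nonneg_left ?_ (by linarith)
    norm_num
    linarith
  have k3 : (Q - t) * (-4 * 10 ^ 15 - t / 2) ≤ -(t * L) + t * l + t * t / 2 -
      4 * 10 ^ 15 * L := by
    have k4 : (t : ℝ) * (2 * L - 2 * l) ≤ t * Q := mul_le_mul_of_nonneg_left (by linarith) ht0
    have k5 : 4 * 10 ^ 15 * L ≤ 4 * 10 ^ 15 * (Q - t) := by
      refine mul_le_mul_of_nonneg_left ?_ (by norm_num)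
      linarith
    linarith
  have k6 : -((s : ℝ) * (L + 1 - lgq - t)) ≤ -(s * L) + s * l + s * t := by
    have k7 : (s : ℝ) * lgq ≤ s * (l + 1) := mul_le_mul_of_nonneg_left hlog2 hs0
    linarith
  have k8 : (s : ℝ) * lq ≤ s * (6 * l) := mul_le_mul_of_nonneg_left hlq hs0
  have k9 : 0.86 * p * L ≤ t * L + s * L := by
    have := mul_le_mul_of_nonneg_right hst hL0.le
    linarith
  have k10 : (t : ℝ) * l ≤ 1.3 * p * l := mul_le_mul_of_nonneg_right ht hl0.le
  have hs2 : (s : ℝ) ≤ 0.87 * p := by linarith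
  have k11 : (s : ℝ) * l ≤ 0.87 * p * l := mul_le_mul_of_nonneg_right hs2 hl0.le
  have k12 : (t : ℝ) * t ≤ (1.3 * p) * (1.3 * p) := mul_le_mul ht ht ht0 (by positivity)
  have k13 : (s : ℝ) * t ≤ (0.87 * p) * (1.3 * p) := mul_le_mul hs2 ht ht0 (by positivity)
  have k14 : p * p * 100000000000000000 ≤ p * L := by
    have := mul_le_mul_of_nonneg_left hp2 hp0.le
    linarith
  have k15 : p * l * 10 ^ 40 ≤ p * L := by
    have := mul_le_mul_of_nonneg_left hl2 hp0.le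
    linarith
  have k16 : g0 * D ≤ 22 / 53 * (2 * p * L) := by
    rw [hD]
    exact mul_le_mul_of_nonneg_right hg0 (by positivity)
  have k17 : (u : ℝ) ≤ 0.005 * p * L := by
    rw [hD] at hu
    linarith
  norm_num at k15 k2 k3
  have hpL : 0 < p * L := by positivity
  linarith

end big

end C0q2
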