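import Pool.Agent.W_c0q2_h26.DW

/-!
# MP_c0ce05_co, question 2: the prior of the main count
-/

set_option autoImplicit false

namespace C0q2

open scoped Classical
open C0lo C0st

variable {N : ℕ}

/-- the admissible derived parts of `A` outside `T` -/
noncomputable def mcS (rel : Fin N → Fin N → Prop) (T : Finset (Fin N)) (s : ℕ)
    (A : Finset (Fin N)) : Finset (Finset (Fin N)) :=
  (A \ T).powerset.filter (fun S => S.card = s ∧ DW rel (A \ S) S)

/-- the prior of the main count: `G = A \ T \ S` is a set with the weight `g! ∏ om`, `S` is one of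
at most `(q Δ) ^ s` sets derived from `T ∪ G` -/
noncomputable def mcP (rel : Fin N → Fin N → Prop) (om : Fin N → ℝ) (T : Finset (Fin N))
    (q Δ s : ℕ) (A : Finset (Fin N)) : ℝ :=
  if T ⊆ A ∧ A.card = q then
    ∑ S ∈ mcS rel T s A, ((q - T.card - s).factorial : ℝ) * (∏ x ∈ (A \ T) \ S, om x) *
      (((q * Δ : ℕ) : ℝ)⁻¹) ^ s
  else 0

variable {rel : Fin N → Fin N → Prop} {om : Fin N → ℝ} {T : Finset (Fin N)} {q Δ s : ℕ}

theorem mcP_nonneg (h0 : ∀ x, 0 ≤ om x) (A : Finset (Fin N)) : 0 ≤ mcP rel om T q Δ s A := by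
  unfold mcP
  split_ifs
  · refine Finset.sum_nonneg fun S _ => ?_
    have := Finset.prod_nonneg (s := (A \ T) \ S) fun x _ => h0 x
    positivity
  · exact le_rfl

/-- one code word -/
theorem le_mcP (h0 : ∀ x, 0 ≤ om x) {A S : Finset (Fin N)} (hT : T ⊆ A) (hA : A.card = q)
    (hS : S ⊆ A \ T) (hs : S.card = s) (hD : DW rel (A \ S) S) :
    ((q - T.card - s).factorial : ℝ) * (∏ x ∈ (A \ T) \ S, om x) *
      (((q * Δ : ℕ) : ℝ)⁻¹) ^ s ≤ mcP rel om T q Δ s A := by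
  unfold mcP
  rw [if_pos ⟨hT, hA⟩]
  refine Finset.single_le_sum (f := fun S => ((q - T.card - s).factorial : ℝ) *
    (∏ x ∈ (A \ T) \ S, om x) * (((q * Δ : ℕ) : ℝ)⁻¹) ^ s) (fun S _ => ?_) ?_
  · have := Finset.prod_nonneg (s := (A \ T) \ S) fun x _ => h0 x
    positivity
  · unfold mcS
    rw [Finset.mem_filter, Finset.mem_powerset]
    exact ⟨hS, hs, hD⟩

/-- the prior has mass at most `1` -/
theorem sum_mcP (h0 : ∀ x, 0 ≤ om x) (h1 : ∑ x, om x ≤ 1)
    (hrel : ∀ x, (Finset.univ.filter (fun y => rel x y)).card ≤ Δ) (hΔ : 1 ≤ Δ) (hq : 1 ≤ q) :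
    ∑ A, mcP rel om T q Δ s A ≤ 1 := by
  have hqΔ : (0 : ℝ) < ((q * Δ : ℕ) : ℝ) := by
    exact_mod_cast Nat.mul_pos hq hΔ
  obtain ⟨g, hg⟩ : ∃ g, g = q - T.card - s := ⟨_, rfl⟩
  -- the pairs `(A, S)`
  obtain ⟨X, hX⟩ : ∃ X : Finset (Finset (Fin N) × Finset (Fin N)), X =
    Finset.univ.filter (fun p => (T ⊆ p.1 ∧ p.1.card = q) ∧ p.2 ∈ mcS rel T s p.1) := ⟨_, rfl⟩
  have e1 : ∑ A, mcP rel om T q Δ s A = ∑ p ∈ X, ((g.factorial : ℝ) *
      (∏ x ∈ (p.1 \ T) \ p.2, om x) * (((q * Δ : ℕ) : ℝ)⁻¹) ^ s) := by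
    rw [hX, Finset.sum_filter, Fintype.sum_prod_type]
    refine Finset.sum_congr rfl fun A _ => ?_
    unfold mcP
    by_cases hc : T ⊆ A ∧ A.card = q
    · rw [if_pos hc, ← hg]
      rw [← Finset.sum_filter_add_sum_filter_not Finset.univ (fun S => S ∈ mcS rel T s A)
        (fun S => if (T ⊆ A ∧ A.card = q) ∧ S ∈ mcS rel T s A then _ else (0 : ℝ))]
      rw [Finset.sum_eq_zero (s := Finset.univ.filter (fun S => S ∉ mcS rel T s A)), add_zero]
      · rw [Finset.filter_mem_eq_inter, Finset.univ_inter]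
        refine Finset.sum_congr rfl fun S hS => ?_
        rw [if_pos ⟨hc, hS⟩]
      · intro S hS
        rw [Finset.mem_filter] at hS
        rw [if_neg fun h => hS.2 h.2]
    · rw [if_neg hc]
      refine (Finset.sum_eq_zero fun S _ => ?_).symm
      rw [if_neg fun h => hc h.1]
  -- the pairs `(G, S)`
  obtain ⟨Y, hY⟩ : ∃ Y : Finset (Finset (Fin N) × Finset (Fin N)), Y =
    ((Finset.univ : Finset (Fin N)).powersetCard g ×ˢ Finset.univ).filter
      (fun p => (p.2.card = s ∧ DW rel (T ∪ p.1) p.2) ∧ T.card + g + s = q) := ⟨_, rfl⟩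
  have key : ∀ p ∈ X, p.1 = (T ∪ ((p.1 \ T) \ p.2)) ∪ p.2 ∧
      p.1 \ p.2 = T ∪ ((p.1 \ T) \ p.2) ∧ ((p.1 \ T) \ p.2).card = g ∧ T.card + g + s = q ∧
      p.2.card = s ∧ DW rel (p.1 \ p.2) p.2 := by
    rintro ⟨A, S⟩ hp
    rw [hX, Finset.mem_filter] at hp
    obtain ⟨_, ⟨hT, hA⟩, hS⟩ := hp
    unfold mcS at hS
    rw [Finset.mem_filter, Finset.mem_powerset] at hS
    obtain ⟨hS1, hS2, hS3⟩ := hS
    dsimp only at hT hA hS1 hS2 hS3 ⊢
    have hd : ∀ x ∈ S, x ∈ A ∧ x ∉ T := fun x hx => Finset.mem_sdiff.1 (hS1 hx)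
    have c1 : A = (T ∪ ((A \ T) \ S)) ∪ S := by
      ext x
      simp only [Finset.mem_union, Finset.mem_sdiff]
      constructor
      · intro h
        by_cases h1 : x ∈ T
        · exact Or.inl (Or.inl h1)
        · by_cases h2 : x ∈ S
          · exact Or.inr h2
          · exact Or.inl (Or.inr ⟨⟨h, h1⟩, h2⟩)
      · rintro ((h | h) | h)
        · exact hT h
        · exact h.1.1
        · exact (hd x h).1
    have c2 : A \ S = T ∪ ((A \ T) \ S) := by
      ext x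
      simp only [Finset.mem_union, Finset.mem_sdiff]
      constructor
      · rintro ⟨h1, h2⟩
        by_cases h3 : x ∈ T
        · exact Or.inl h3
        · exact Or.inr ⟨⟨h1, h3⟩, h2⟩
      · rintro (h | h)
        · exact ⟨hT h, fun h2 => (hd x h2).2 h⟩
        · exact ⟨h.1.1, h.2⟩
    have c3 : (A \ T).card + T.card = q := by
      rw [Finset.card_sdiff_add_card_eq_card hT, hA]
    have c4 : ((A \ T) \ S).card + s = (A \ T).card := by
      rw [← hS2]
      exact Finset.card_sdiff_add_card_eq_card hS1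
    exact ⟨c1, c2, by omega, by omega, hS2, hS3⟩
  have e2 : ∑ p ∈ X, ((g.factorial : ℝ) *
      (∏ x ∈ (p.1 \ T) \ p.2, om x) * (((q * Δ : ℕ) : ℝ)⁻¹) ^ s) ≤
      ∑ p ∈ Y, ((g.factorial : ℝ) * (∏ x ∈ p.1, om x) * (((q * Δ : ℕ) : ℝ)⁻¹) ^ s) := by
    have e3 : ∑ p ∈ X, ((g.factorial : ℝ) *
        (∏ x ∈ (p.1 \ T) \ p.2, om x) * (((q * Δ : ℕ) : ℝ)⁻¹) ^ s) =
        ∑ p ∈ X.image (fun p => ((p.1 \ T) \ p.2, p.2)), ((g.factorial : ℝ) *
          (∏ x ∈ p.1, om x) * (((q * Δ : ℕ) : ℝ)⁻¹) ^ s) := by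
      rw [Finset.sum_image]
      intro p hp p' hp' h
      rw [Prod.mk.injEq] at h
      have k1 := (key p (Finset.mem_coe.1 hp)).1
      have k2 := (key p' (Finset.mem_coe.1 hp')).1
      rw [h.1, h.2] at k1
      exact Prod.ext (k1.trans k2.symm) h.2
    rw [e3]
    refine Finset.sum_le_sum_of_subset_of_nonneg ?_ fun p _ _ => ?_
    · intro p hp
      obtain ⟨p', hp', rfl⟩ := Finset.mem_image.1 hp
      obtain ⟨k1, k2, k3, k4, k5, k6⟩ := key p' hp'
      rw [hY, Finset.mem_filter, Finset.mem_product, Finset.mem_powersetCard]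
      refine ⟨⟨⟨Finset.subset_univ _, k3⟩, Finset.mem_univ _⟩, ⟨k5, ?_⟩, k4⟩
      rw [← k2]
      exact k6
    · have := Finset.prod_nonneg (s := p.1) fun x _ => h0 x
      positivity
  rw [e1]
  refine e2.trans ?_
  by_cases hgs : T.card + g + s = q
  · have e4 : ∑ p ∈ Y, ((g.factorial : ℝ) * (∏ x ∈ p.1, om x) *
        (((q * Δ : ℕ) : ℝ)⁻¹) ^ s) =
        ∑ G ∈ (Finset.univ : Finset (Fin N)).powersetCard g,
          ∑ S ∈ (Finset.univ : Finset (Finset (Fin N))).filter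
            (fun S => S.card = s ∧ DW rel (T ∪ G) S),
          ((g.factorial : ℝ) * (∏ x ∈ G, om x) * (((q * Δ : ℕ) : ℝ)⁻¹) ^ s) := by
      rw [hY, Finset.sum_filter, Finset.sum_product]
      refine Finset.sum_congr rfl fun G _ => ?_
      rw [Finset.sum_filter]
      refine Finset.sum_congr rfl fun S _ => ?_
      dsimp only
      by_cases h : S.card = s ∧ DW rel (T ∪ G) S
      · rw [if_pos ⟨h, hgs⟩, if_pos h]
      · rw [if_neg fun h' => h h'.1, if_neg h]
    rw [e4]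
    refine le_trans ?_ (sum_prod_le h0 h1 g)
    rw [Finset.mul_sum]
    refine Finset.sum_le_sum fun G hG => ?_
    rw [Finset.mem_powersetCard] at hG
    rw [Finset.sum_const, nsmul_eq_mul]
    have hc := card_DW hrel (T ∪ G) s q (by
      have := Finset.card_union_le T G
      omega)
    have hc' : ((((Finset.univ : Finset (Finset (Fin N))).filter
      (fun S => S.card = s ∧ DW rel (T ∪ G) S)).card : ℕ) : ℝ) ≤ ((q * Δ : ℕ) : ℝ) ^ s := by
      exact_mod_cast hc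
    have hp := Finset.prod_nonneg (s := G) fun x _ => h0 x
    have hf : (0 : ℝ) ≤ (g.factorial : ℝ) * ∏ x ∈ G, om x := by positivity
    calc _ ≤ ((q * Δ : ℕ) : ℝ) ^ s * ((g.factorial : ℝ) * (∏ x ∈ G, om x) *
          (((q * Δ : ℕ) : ℝ)⁻¹) ^ s) := mul_le_mul_of_nonneg_right hc' (by positivity)
      _ = (g.factorial : ℝ) * (∏ x ∈ G, om x) * (((q * Δ : ℕ) : ℝ) *
          ((q * Δ : ℕ) : ℝ)⁻¹) ^ s := by rw [mul_pow]; ring
      _ = (g.factorial : ℝ) * ∏ x ∈ G, om x := by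
        rw [mul_inv_cancel₀ hqΔ.ne', one_pow, mul_one]
  · have hY0 : Y = ∅ := by
      rw [hY]
      exact Finset.filter_false_of_mem fun p _ h => hgs h.2
    rw [hY0, Finset.sum_empty]
    exact zero_le_one

end C0q2
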