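import Pool.Agent.W_c0q2_h20.Iface
import Pool.Agent.W_c0q2_h26.CL

/-!
# MP_c0ce05_co, question 2: section 8 in the form of the interface
-/

set_option autoImplicit false

namespace C0q2

open scoped Classical
open C0lo C0st

/-- `q ≤ 2 L` -/
theorem CLq_le2 {N q : ℕ} {L l : ℝ} (h : Big N q L l) : (q : ℝ) ≤ 2 * L := by
  have h1 := h.q_le
  have h2 := h.l_big
  norm_num at h2
  linarith

theorem s_CL26 : S_CL := by
  intro N q L l P D p hc A hA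
  obtain ⟨hAq, hAK, hAD, hAu⟩ := mem_Fam.1 hA
  obtain ⟨Dl, hV, hDl⟩ := hc.val
  have hp1 := hc.p1
  have hp2 := hc.p2
  have hD := hc.hD
  have hq2 := CLq_le2 hc.big
  norm_num at hp1 hp2
  have hp0 : 0 < p := by linarith
  have hL0 : 0 < L := by nlinarith
  by_contra hcon
  push Not at hcon
  obtain ⟨m0, hm0⟩ : ∃ m0 : ℕ, m0 = ⌊p / 20000⌋₊ := ⟨_, rfl⟩
  obtain ⟨dm, hdm⟩ : ∃ dm : ℕ, dm = ⌊0.86 * p⌋₊ := ⟨_, rfl⟩
  have hm1 : (m0 : ℝ) ≤ p / 20000 := hm0 ▸ Nat.floor_le (by positivity)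
  have hm2 : p / 20000 < (m0 : ℝ) + 1 := hm0 ▸ Nat.lt_floor_add_one _
  have hd1 : (dm : ℝ) ≤ 0.86 * p := hdm ▸ Nat.floor_le (by positivity)
  have hm3 : 1 ≤ m0 := by
    have : (0 : ℝ) < (m0 : ℝ) := by linarith
    exact_mod_cast this
  have h1 : ∀ R ⊆ A, R.Nonempty → R.card ≤ m0 → ∀ D, Der P R A D → D.card ≤ dm := by
    intro R hR _ hRc D' hD'
    have h2 : (R.card : ℝ) ≤ p / 20000 := le_trans (by exact_mod_cast hRc) hm1
    have h3 := hcon R hR h2 D' hD'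
    rw [hdm]
    exact Nat.le_floor h3.le
  have h4 : 2 * dm < (m0 / 4) * (140000 + 1) := by
    have h5 : m0 < 4 * (m0 / 4 + 1) := by omega
    have h6 : (m0 : ℝ) < 4 * ((m0 / 4 : ℕ) + 1) := by exact_mod_cast h5
    have h7 : (2 : ℝ) * dm < ((m0 / 4 : ℕ) : ℝ) * (140000 + 1) := by
      nlinarith
    exact_mod_cast h7
  have h8 := lk_ed_le (A := A) hV hm3 h1 h4
  rw [hAD, hAq] at h8
  have h9 : (D : ℝ) ≤ q * dm + (2 * dm * (2 * dm) + q * 140000 * 140000 +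
      2 * dm * 140000 * (2 * dm)) := by exact_mod_cast h8
  have hdm0 : (0 : ℝ) ≤ dm := Nat.cast_nonneg _
  have h10 : (q : ℝ) * dm ≤ 2 * L * (0.86 * p) :=
    mul_le_mul hq2 hd1 hdm0 (by positivity)
  have h11 : (dm : ℝ) * dm ≤ (0.86 * p) * (0.86 * p) :=
    mul_le_mul hd1 hd1 hdm0 (by positivity)
  have h12 : p * p * 100000000000000000 ≤ p * L := by nlinarith
  have h13 : 1000000000000000 * L ≤ p * L := mul_le_mul_of_nonneg_right hp1 hL0.le
  rw [hD] at h9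
  nlinarith [mul_pos hp0 hL0]

end C0q2
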