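import Pool.Agent.W_c0q2_h26.MBit

/-!
# MP_c0ce05_co, question 2: section 6, the main count
-/

set_option autoImplicit false

namespace C0q2

open scoped Classical
open C0lo C0st

/-- the vertex weights are at most `1` together -/
theorem MC_om {N : ℕ} {P : GP N} {T : Finset (Fin N)} (hN : (1 : ℝ) ≤ N)
    (h : ∑ x ∈ Finset.univ \ T, wtP P (starQ T x) ≤ 2 * N) :
    ∑ x ∈ Finset.univ.filter (fun x => x ∉ T), omv P T x ≤ 1 := by
  have h1 : ∀ x, omv P T x = wtP P (starQ T x) / (2 * N) := by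
    intro x
    unfold omv wtP
    show (if Disjoint (C0q2W.star T x) P.K then _ else _) =
      (if Disjoint (C0q2W.star T x) P.K then _ else _) / (2 * (N : ℝ))
    split_ifs
    · rfl
    · rw [zero_div]
  have h2 : (Finset.univ.filter (fun x => x ∉ T)) = Finset.univ \ T := by
    ext x
    rw [Finset.mem_filter, Finset.mem_sdiff]
  rw [h2, Finset.sum_congr rfl fun x _ => h1 x, ← Finset.sum_div, div_le_one (by linarith)]
  exact h

/-- the derived part of exact size -/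
theorem MC_S {N : ℕ} {P : GP N} {R T A Dr : Finset (Fin N)} {s : ℕ} (hD : Derq P R A Dr)
    (hs : s + T.card ≤ Dr.card) :
    ∃ S ⊆ A \ T, S.card = s ∧ DW (Ar P R) (A \ S) S := by
  have h1 : s ≤ (Dr \ T).card := by
    have h2 : Dr.card ≤ (Dr \ T).card + T.card := by
      have h3 := Finset.card_sdiff_add_card_inter Dr T
      have h4 : (Dr ∩ T).card ≤ T.card := Finset.card_le_card Finset.inter_subset_right
      omega
    omega
  obtain ⟨S, hS, hSc⟩ := Finset.exists_subset_card_eq h1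
  have hder : Der P R A Dr := hD
  have h5 : Der P R A S := hder.sub (hS.trans Finset.sdiff_subset)
  have h6 := h5.toDW (T := ∅)
  rw [Finset.sdiff_empty] at h6
  refine ⟨S, fun x hx => ?_, hSc, h6⟩
  rw [Finset.mem_sdiff]
  exact ⟨h5.1 hx, (Finset.mem_sdiff.1 (hS hx)).2⟩

theorem s_MC (hG : S_G) : S_MC := by
  intro N q L l hB
  have hL17 : (10 : ℝ) ^ 17 ≤ L := by
    have := MN_L hB
    norm_num at this ⊢
    linarith
  obtain ⟨h2N, hN1⟩ := MN_N hB
  have hNn : 1 ≤ N := by exact_mod_cast hN1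
  obtain ⟨hq1, hq2⟩ := MN_q hB
  have hL0 : 0 < L := by
    norm_num at hL17
    linarith
  have hqn : 1 ≤ q := by
    have : (0 : ℝ) < q := by
      norm_num at hq1
      linarith
    exact_mod_cast this
  obtain ⟨Δ, hΔ⟩ : ∃ Δ, Δ = ⌊L ^ 4⌋₊ := ⟨_, rfl⟩
  obtain ⟨hptr, hΔ1⟩ := MBit_ptr hB
  rw [← hΔ] at hptr hΔ1
  have hΔ2 : (Δ : ℝ) ≤ L ^ 4 := hΔ ▸ Nat.floor_le (by positivity)
  have hm1 : 1 ≤ mMC N := by
    have h1 := MBit_m hB
    have h2 : (0 : ℝ) < (N : ℝ) * L ^ 7 := by positivity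
    have h3 : (0 : ℝ) < (mMC N : ℝ) := lt_of_lt_of_le h2 h1
    exact_mod_cast h3
  refine (hG N L hB.L_def hL17 (MDat N q Δ) inferInstance (mMC N) (fun d => d.1) mdA (1 / 64)
    hm1 (by norm_num) mdA_nonneg (sum_mdA hqn hΔ1)).mono le_rfl ?_
  intro P hP D p hc hWT C hCsub hCne R T hRc hRT hTc hTA hDr hlossy
  have hgib := hP hc.val
  obtain ⟨Dl, hV, hDl⟩ := hc.val
  have hp1 := hc.p1
  have hp2 := hc.p2
  norm_num at hp1 hp2
  have hp0 : 0 < p := by linarith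
  obtain ⟨dm, hdm⟩ : ∃ dm : ℕ, dm = ⌈0.86 * p⌉₊ := ⟨_, rfl⟩
  have hd1 : 0.86 * p ≤ dm := hdm ▸ Nat.le_ceil _
  have hd2 : (dm : ℝ) < 0.86 * p + 1 := hdm ▸ Nat.ceil_lt_add_one (by positivity)
  obtain ⟨s, hs⟩ : ∃ s, s = dm - T.card := ⟨_, rfl⟩
  have hs1 : (s : ℝ) ≤ 0.86 * p + 1 := by
    have : s ≤ dm := by omega
    have h2 : (s : ℝ) ≤ dm := by exact_mod_cast this
    linarith
  have hs2 : 0.86 * p ≤ (T.card : ℝ) + s := by
    have : dm ≤ T.card + s := by omega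
    have h2 : (dm : ℝ) ≤ (T.card : ℝ) + s := by exact_mod_cast this
    linarith
  have hTq : (T.card : ℝ) ≤ q := by
    norm_num at hq1
    linarith
  have hsq : (s : ℝ) ≤ q := by
    norm_num at hq1
    linarith
  have hTL : (T.card : ℝ) ≤ 0.4 * L := by linarith
  -- the data
  obtain ⟨d, hdT, hdc⟩ := exists_data (q := q) (Δ := Δ) hV (R := R) (T := T) (s := s) hΔ1
    (hΔ ▸ MBit_deg hB hc.p2 hRc hDl) (by exact_mod_cast hTq) (by exact_mod_cast hsq)
    (MC_om hN1 (hWT T hTL))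
  -- the code words
  have hcode : ∀ A ∈ C, ∃ S ⊆ A \ T, S.card = s ∧ DW (Ar P R) (A \ S) S := by
    intro A hA
    obtain ⟨Dr, hD1, hD2⟩ := hDr A hA
    by_cases hT : dm ≤ T.card
    · refine ⟨∅, Finset.empty_subset _, ?_, fun x => x, fun _ => 0, fun y hy =>
        absurd hy (Finset.notMem_empty y)⟩
      rw [Finset.card_empty]
      omega
    · refine MC_S hD1 ?_
      have h1 : dm ≤ Dr.card := by
        rw [hdm]
        exact Nat.ceil_le.2 hD2
      omega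
  obtain ⟨u, hu⟩ : ∃ u, u = D / 400 := ⟨_, rfl⟩
  have hu1 : 400 * (u : ℝ) ≤ D := by
    have : 400 * u ≤ D := by omega
    exact_mod_cast this
  obtain ⟨B, hBdef⟩ : ∃ B : ℝ, B = (q - T.card - s : ℕ) * (Real.logb 2 N + 1) -
        Real.logb 2 ((q - T.card - s).factorial : ℝ) -
        (q - T.card - s : ℕ) * T.card - ((q - T.card : ℕ).choose 2 : ℕ) + u +
        Real.logb 2 (4 / 3) * D + s * Real.logb 2 ((q * Δ : ℕ) : ℝ) := ⟨_, rfl⟩
  have key : ∀ A ∈ C, 0 < mdA d A ∧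
      -B - ((lossy C (1 / (L ^ 12 * mMC N)) (A \ T)).card : ℝ) ≤
        Real.logb 2 (mdA d A) +
          ((((ed (A \ T)) ∩ P.C) \ lossy C (1 / (L ^ 12 * mMC N)) (A \ T)).card : ℝ) -
          g0 * (lk P (ed (A \ T)) (ed (A \ T)) : ℝ) := by
    intro A hA
    obtain ⟨S, hS1, hS2, hS3⟩ := hcode A hA
    obtain ⟨a1, a2, a3, a4⟩ := mem_Fam.1 (hCsub hA)
    have h1 := hdc A S (hTA A hA) a1 hS1 hS2 hS3
    have hpos : 0 < ((q - T.card - s).factorial : ℝ) * (∏ x ∈ (A \ T) \ S, omv P T x) *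
        (((q * Δ : ℕ) : ℝ)⁻¹) ^ s := by
      have b1 : (0 : ℝ) < ((q * Δ : ℕ) : ℝ) := by exact_mod_cast Nat.mul_pos hqn hΔ1
      have b2 : 0 < ∏ x ∈ (A \ T) \ S, omv P T x := by
        refine Finset.prod_pos fun x hx => ?_
        unfold omv
        rw [if_pos (Finset.disjoint_of_subset_left
          (star_sub (hTA A hA) (Finset.mem_sdiff.1 hx).1) a2)]
        positivity
      have b3 : (0 : ℝ) < ((q - T.card - s).factorial : ℝ) := by
        exact_mod_cast Nat.factorial_pos _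
      positivity
    refine ⟨lt_of_lt_of_le hpos h1, ?_⟩
    have h2 := bracket (P := P) hNn (hTA A hA) hS1 a2 a1 hS2 hqn hΔ1 (u := u)
      (by omega) (le_of_eq a3) (lossy C (1 / (L ^ 12 * mMC N)) (A \ T))
    have h3 := Real.logb_le_logb_of_le (b := 2) (by norm_num) hpos h1
    rw [hBdef]
    unfold g0
    linarith
  -- the Gibbs inequality
  have hg := hgib d C hCne (fun A hA => by
    obtain ⟨a1, a2, -, -⟩ := mem_Fam.1 (hCsub hA)
    refine ⟨a2, ?_, (key A hA).1⟩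
    rw [a1]
    exact hq2)
  rw [hdT] at hg
  have hc1 : (1 : ℝ) ≤ C.card := by exact_mod_cast Finset.card_pos.2 hCne
  have hlow : (C.card : ℝ) * (-B) -
      ∑ A ∈ C, ((lossy C (1 / (L ^ 12 * mMC N)) (A \ T)).card : ℝ) ≤
      ∑ A ∈ C, (Real.logb 2 (C.card : ℝ) + Real.logb 2 (mdA d A) +
      ((((ed (A \ T)) ∩ P.C) \ lossy C (1 / (L ^ 12 * mMC N)) (A \ T)).card : ℝ) -
      g0 * (lk P (ed (A \ T)) (ed (A \ T)) : ℝ)) := by
    rw [← nsmul_eq_mul, ← Finset.sum_const, ← Finset.sum_sub_distrib]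
    refine Finset.sum_le_sum fun A hA => ?_
    have h1 := (key A hA).2
    have h2 : 0 ≤ Real.logb 2 (C.card : ℝ) := Real.logb_nonneg (by norm_num) hc1
    linarith
  have hbits := MBit_le hB hΔ2
  have hfin := MN_final hB hc.p1 hc.p2 hc.hD hu1 hTc hs1 hs2 hptr
  have hB' : B + ((24000000 * p) ^ 2 / 2 + 640010 * L) + 3 < 0 := by
    rw [hBdef, ← hB.L_def]
    unfold g0 at hfin
    linarith
  have h1 : (C.card : ℝ) * (-B) - (C.card : ℝ) * ((24000000 * p) ^ 2 / 2 + 640010 * L) ≤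
      (1 + 2) * (C.card : ℝ) := by
    have h2 := hlow.trans hg
    have h3 : ((Real.logb 2 (Fintype.card (MDat N q Δ) : ℝ) + Real.logb 2 (1 / (1 / 64))) /
        mMC N + 2) * (C.card : ℝ) ≤ (1 + 2) * (C.card : ℝ) :=
      mul_le_mul_of_nonneg_right (by linarith) (by linarith)
    linarith
  have h4 : (C.card : ℝ) * (B + ((24000000 * p) ^ 2 / 2 + 640010 * L) + 3) < 0 :=
    mul_neg_of_pos_of_neg (by linarith) hB'
  linarith

end C0q2
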